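import Pool.Agent.K7.H44.LP.Fin

/-!
# Induced subgraphs
-/

set_option autoImplicit false

namespace Pool.Agent.K7.H44.LP

variable {V : Type*} {G : SimpleGraph V}

/-- The fork: `0` is adjacent to `1`, `2` and `3`, and `3` to `4`. -/
def fork : SimpleGraph (Fin 5) := SimpleGraph.fromEdgeSet {s(0, 1), s(0, 2), s(0, 3), s(3, 4)}

theorem noP5 (h : IsEmpty (SimpleGraph.pathGraph 5 ↪g G)) : NoP5 G := by
  intro a b c d e hab hbc hcd hde hac had hae hbd hbe hce
  refine h.elim' ?_
  have n1 : ∀ x, ¬ G.Adj x x := fun x => G.loopless.irrefl x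
  have hba := hab.symm
  have hcb := hbc.symm
  have hdc := hcd.symm
  have hed := hde.symm
  have hca : ¬ G.Adj c a := fun h => hac h.symm
  have hda : ¬ G.Adj d a := fun h => had h.symm
  have hea : ¬ G.Adj e a := fun h => hae h.symm
  have hdb : ¬ G.Adj d b := fun h => hbd h.symm
  have heb : ¬ G.Adj e b := fun h => hbe h.symm
  have hec : ¬ G.Adj e c := fun h => hce h.symm
  have key : ∀ i j : Fin 5, G.Adj ((![a, b, c, d, e] : Fin 5 → V) i) (![a, b, c, d, e] j) ↔
      (SimpleGraph.pathGraph 5).Adj i j := by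
    intro i j
    rw [SimpleGraph.pathGraph_adj]
    fin_cases i <;> fin_cases j <;>
      simp [hab, hbc, hcd, hde, hac, had, hae, hbd, hbe, hce, hba, hcb, hdc, hed, hca, hda, hea, hdb,
        heb, hec, n1]
  refine ⟨⟨![a, b, c, d, e], ?_⟩, fun {i j} => key i j⟩
  intro i j hij
  have h1 : ∀ k : Fin 5, (i.val + 1 = k.val ∨ k.val + 1 = i.val) ↔
      (j.val + 1 = k.val ∨ k.val + 1 = j.val) := by
    intro k
    have e1 := key i k
    have e2 := key j k
    rw [hij] at e1
    rw [SimpleGraph.pathGraph_adj] at e1 e2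
    exact e1.symm.trans e2
  exact (by decide : ∀ i j : Fin 5, (∀ k : Fin 5, (i.val + 1 = k.val ∨ k.val + 1 = i.val) ↔
    (j.val + 1 = k.val ∨ k.val + 1 = j.val)) → i = j) i j h1

theorem fork_emb {a s t u v : V} (h : Fork G a s t u v) :
    ∃ f : fork ↪g G, f 3 = u ∧ f 4 = v := by
  obtain ⟨has, hat, hau, huv, hne, hst, hsu, hsv, htu, htv, hav⟩ := h
  have n1 : ∀ x, ¬ G.Adj x x := fun x => G.loopless.irrefl x
  have hsa := has.symm
  have hta := hat.symm
  have hua := hau.symm
  have hvu := huv.symm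
  have hts : ¬ G.Adj t s := fun h => hst h.symm
  have hus : ¬ G.Adj u s := fun h => hsu h.symm
  have hvs : ¬ G.Adj v s := fun h => hsv h.symm
  have hut : ¬ G.Adj u t := fun h => htu h.symm
  have hvt : ¬ G.Adj v t := fun h => htv h.symm
  have hva : ¬ G.Adj v a := fun h => hav h.symm
  have key : ∀ i j : Fin 5, G.Adj ((![a, s, t, u, v] : Fin 5 → V) i) (![a, s, t, u, v] j) ↔
      fork.Adj i j := by
    intro i j
    rw [fork, SimpleGraph.fromEdgeSet_adj]
    fin_cases i <;> fin_cases j <;>
      simp [has, hat, hau, huv, hst, hsu, hsv, htu, htv, hav, hsa, hta, hua, hvu, hts, hus, hvs,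
        hut, hvt, hva, n1]
  have hinj : Function.Injective (![a, s, t, u, v] : Fin 5 → V) := by
    have nas : a ≠ s := has.ne
    have nat : a ≠ t := hat.ne
    have nau : a ≠ u := hau.ne
    have nuv : u ≠ v := huv.ne
    have nav : a ≠ v := by rintro rfl; exact hsv hsa
    have nsu : s ≠ u := by rintro rfl; exact hsv huv
    have nsv : s ≠ v := by rintro rfl; exact hsu hvu
    have ntu : t ≠ u := by rintro rfl; exact htv huv
    have ntv : t ≠ v := by rintro rfl; exact htu hvu
    intro i j hij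
    fin_cases i <;> fin_cases j <;>
      simp_all [nas.symm, nat.symm, nau.symm, nuv.symm, nav.symm, nsu.symm, nsv.symm, ntu.symm,
        ntv.symm, hne.symm]
  exact ⟨⟨⟨![a, s, t, u, v], hinj⟩, fun {i j} => key i j⟩, rfl, rfl⟩

/-- A longest path. -/
def IsLongest (G : SimpleGraph V) {u v : V} (p : G.Walk u v) : Prop :=
  p.IsPath ∧ ∀ (u' v' : V) (q : G.Walk u' v'), q.IsPath → q.length ≤ p.length

theorem IsLongest.longest {u v : V} {p : G.Walk u v} (h : IsLongest G p) :
    Longest G p.support := by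
  refine ⟨p.isChain_adj_support, h.1.support_nodup, fun l' h1 h2 => ?_⟩
  rcases eq_or_ne l' [] with rfl | hne
  · simp
  · have h3 := h.2 _ _ (SimpleGraph.Walk.ofSupport l' hne h1)
      (by rw [SimpleGraph.Walk.isPath_def, SimpleGraph.Walk.support_ofSupport]; exact h2)
    have h4 := (SimpleGraph.Walk.ofSupport l' hne h1).length_support
    rw [SimpleGraph.Walk.support_ofSupport] at h4
    rw [SimpleGraph.Walk.length_support]
    omega

end Pool.Agent.K7.H44.LP
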