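import Pool.Agent.K7.H44.LP.Ex

/-!
# One more exchange argument
-/

set_option autoImplicit false

namespace Pool.Agent.K7.H44.LP

open Classical

variable {V : Type*} {G : SimpleGraph V} {l : List V} {C : Set V}

theorem chain3 {x : V} {Y Z : List V} (hY : Y.IsChain G.Adj) (hZ : Z.IsChain G.Adj) (hne : Y ≠ [])
    (h1 : ∀ y ∈ Y.head?, G.Adj x y) (h2 : ∀ y ∈ Y.getLast?, ∀ z ∈ Z.head?, G.Adj y z) :
    (x :: (Y ++ Z)).IsChain G.Adj := by
  rw [List.isChain_cons]
  refine ⟨?_, List.isChain_append.2 ⟨hY, hZ, h2⟩⟩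
  obtain ⟨y, Y', rfl⟩ := List.exists_cons_of_ne_nil hne
  intro v hv
  exact h1 v (by simpa using hv)

theorem ex3a (h : Longest G l) (hC : ∀ c ∈ C, c ∉ l) {x : V} {Y Z : List V}
    (hl : l = Y ++ x :: Z) (hne : Y ≠ []) (h1 : ∀ y ∈ Y.head?, G.Adj x y)
    (h2 : ∀ y ∈ Y.getLast?, ∀ z ∈ Z.head?, G.Adj y z) {c : V} (hc : c ∈ C) (hcx : G.Adj c x) :
    False := by
  have hch := h.1
  rw [hl, List.isChain_append, List.isChain_cons] at hch
  refine h.contra hC (R := [c]) (l' := c :: x :: (Y ++ Z)) (by simp) (by simp)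
    (by simpa using hc) ?_ ?_
  · rw [List.isChain_cons_cons]
    exact ⟨hcx, chain3 hch.1 hch.2.1.2 hne h1 h2⟩
  · rw [hl, List.perm_iff_count]
    intro v
    simp only [List.count_append, List.count_cons, List.count_nil]
    omega

theorem ex3b (h : Longest G l) (hC : ∀ c ∈ C, c ∉ l) (hL : Link G C) {b x : V} {X Y Z : List V}
    (hl : l = X ++ b :: (Y ++ x :: Z)) (hne : Y ≠ []) (h1 : ∀ y ∈ Y.head?, G.Adj x y)
    (h2 : ∀ y ∈ Y.getLast?, ∀ z ∈ Z.head?, G.Adj y z) {c c' : V} (hc : c ∈ C) (hc' : c' ∈ C)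
    (hcb : G.Adj c b) (hcx : G.Adj c' x) : False := by
  obtain ⟨R, r1, r2, r3, r4, r5⟩ := hL c hc c' hc'
  have hRne : R ≠ [] := by
    rintro rfl
    simp at r4
  have hch := h.1
  rw [hl, List.isChain_split] at hch
  obtain ⟨a1, a2⟩ := hch
  rw [List.isChain_cons] at a2
  obtain ⟨-, a3⟩ := a2
  rw [List.isChain_append, List.isChain_cons] at a3
  refine h.contra hC (l' := X ++ b :: (R ++ x :: (Y ++ Z))) hRne r2 r3 ?_ ?_
  · rw [List.isChain_split]
    refine ⟨a1, ?_⟩
    rw [← List.cons_append, List.isChain_append]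
    refine ⟨?_, chain3 a3.1 a3.2.1.2 hne h1 h2, ?_⟩
    · rw [List.isChain_cons]
      refine ⟨?_, r1⟩
      intro y hy
      rw [r4] at hy
      simp only [Option.mem_def, Option.some.injEq] at hy
      subst hy
      exact hcb.symm
    · intro z hz y hy
      rw [List.getLast?_cons, r5] at hz
      simp at hz hy
      subst hz
      subst hy
      exact hcx
  · rw [hl, List.perm_iff_count]
    intro v
    simp only [List.count_append, List.count_cons]
    omega

theorem ix3 (h : Longest G l) (hC : ∀ c ∈ C, c ∉ l) (hL : Link G C) (x : V) (k m : ℕ)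
    (hkm : k < m) (hm : m + 1 < l.length) {c : V} (hc : c ∈ C) (hcm : G.Adj c (l.getD m x))
    (hadj : G.Adj (l.getD m x) (l.getD k x))
    (hk : k = 0 ∨ (1 ≤ k ∧ ∃ c' ∈ C, G.Adj c' (l.getD (k - 1) x))) :
    ¬ G.Adj (l.getD (m - 1) x) (l.getD (m + 1) x) := by
  intro huw
  have hmL : m < l.length := by omega
  have hkL : k < l.length := by omega
  rw [List.getD_eq_getElem _ _ hmL] at hcm hadj
  rw [List.getD_eq_getElem _ _ hkL] at hadj
  rw [List.getD_eq_getElem _ _ (show m - 1 < l.length by omega), List.getD_eq_getElem _ _ hm] at huw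
  set Y := (l.drop k).take (m - k) with hY
  have hdrop : l.drop k = Y ++ l[m] :: l.drop (m + 1) := by
    rw [← List.drop_eq_getElem_cons hmL]
    have h2 : l.drop m = (l.drop k).drop (m - k) := by
      rw [List.drop_drop]
      congr 1
      omega
    rw [h2, hY, List.take_append_drop]
  have hlen : Y.length = m - k := by
    rw [hY, List.length_take, List.length_drop]
    omega
  have hYne : Y ≠ [] := by
    rw [← List.length_pos_iff, hlen]
    omega
  have h1 : ∀ y ∈ Y.head?, G.Adj l[m] y := by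
    intro y hy
    rw [List.head?_eq_getElem?, hY, List.getElem?_take_of_lt (by omega), List.getElem?_drop,
      Nat.add_zero, List.getElem?_eq_getElem hkL] at hy
    simp only [Option.mem_def, Option.some.injEq] at hy
    subst hy
    exact hadj
  have h2 : ∀ y ∈ Y.getLast?, ∀ z ∈ (l.drop (m + 1)).head?, G.Adj y z := by
    intro y hy z hz
    rw [List.getLast?_eq_getElem?, hlen, hY, List.getElem?_take_of_lt (by omega),
      List.getElem?_drop, show k + (m - k - 1) = m - 1 by omega,
      List.getElem?_eq_getElem (show m - 1 < l.length by omega)] at hy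
    rw [List.head?_eq_getElem?, List.getElem?_drop, Nat.add_zero, List.getElem?_eq_getElem hm] at hz
    simp only [Option.mem_def, Option.some.injEq] at hy hz
    subst hy
    subst hz
    exact huw
  rcases hk with rfl | ⟨hk1, c', hc', hcb⟩
  · refine ex3a h hC (Y := Y) (Z := l.drop (m + 1)) (x := l[m]) ?_ hYne h1 h2 hc hcm
    rw [← hdrop, List.drop_zero]
  · have hkb : k - 1 < l.length := by omega
    rw [List.getD_eq_getElem _ _ hkb] at hcb
    refine ex3b h hC hL (X := l.take (k - 1)) (b := l[k - 1]) (Y := Y) (Z := l.drop (m + 1))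
      (x := l[m]) ?_ hYne h1 h2 hc' hc hcb hcm
    rw [← hdrop]
    have h3 : l.drop (k - 1) = l[k - 1] :: l.drop k := by
      rw [List.drop_eq_getElem_cons hkb]
      congr 2
      omega
    rw [← h3, List.take_append_drop]

end Pool.Agent.K7.H44.LP
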