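import Pool.Agent.K7.H44.LP.Ex

/-!
# Vertices off a longest path of a `P₅`-free graph
-/

set_option autoImplicit false

namespace Pool.Agent.K7.H44.LP

open Finset Classical

variable {V : Type*} {G : SimpleGraph V} {l : List V}

/-- the component of `x` in the rest of the graph -/
def comp (G : SimpleGraph V) (l : List V) (x : V) : Set V :=
  {v | ∃ (hx : x ∉ l) (hv : v ∉ l), (G.induce {v | v ∉ l}).Reachable ⟨x, hx⟩ ⟨v, hv⟩}

theorem comp_not {x : V} : ∀ c ∈ comp G l x, c ∉ l := fun _ hc => hc.2.1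

theorem self_comp {x : V} (hx : x ∉ l) : x ∈ comp G l x := ⟨hx, hx, SimpleGraph.Reachable.refl _⟩

theorem comp_closed {x c v : V} (hc : c ∈ comp G l x) (h : G.Adj c v) (hv : v ∉ l) :
    v ∈ comp G l x := by
  obtain ⟨hx, hc', hr⟩ := hc
  refine ⟨hx, hv, hr.trans ?_⟩
  exact SimpleGraph.Adj.reachable (by simpa using h)

theorem comp_link (x : V) : Link G (comp G l x) := by
  rintro c ⟨hx, hc, h1⟩ c' ⟨hx', hc', h2⟩
  obtain ⟨w, hw⟩ := (h1.symm.trans h2).exists_isPath
  refine ⟨w.support.map Subtype.val, ?_, ?_, ?_, ?_, ?_⟩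
  · rw [List.isChain_map]
    exact w.isChain_adj_support.imp fun a b h => by simpa using h
  · exact hw.support_nodup.map Subtype.val_injective
  · intro v hv
    obtain ⟨⟨v', hv'⟩, hm, rfl⟩ := List.mem_map.1 hv
    refine ⟨hx, hv', h1.trans ?_⟩
    exact ⟨w.takeUntil _ hm⟩
  · rw [List.head?_map, List.head?_eq_some_head w.support_ne_nil, SimpleGraph.Walk.head_support]
    rfl
  · rw [List.getLast?_map, List.getLast?_eq_some_getLast w.support_ne_nil,
      SimpleGraph.Walk.getLast_support]
    rfl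

theorem comp_conn (x : V) : ∀ U : Set V, U ⊆ comp G l x → U.Nonempty →
    (∀ u ∈ U, ∀ v ∈ comp G l x, G.Adj u v → v ∈ U) → U = comp G l x := by
  intro U hU ⟨u, hu⟩ hcl
  refine Set.Subset.antisymm hU ?_
  intro v hv
  by_contra hvU
  obtain ⟨R, h1, h2, h3, h4, h5⟩ := comp_link (G := G) (l := l) x u (hU hu) v hv
  -- walk along `R`
  have key : ∀ (R : List V) (u : V), u ∈ U → R.IsChain G.Adj → (∀ v ∈ R, v ∈ comp G l x) →
      R.head? = some u → ∀ v ∈ R, v ∈ U := by
    intro R
    induction R with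
    | nil => intro u _ _ _ _ v hv; simp at hv
    | cons a R ih =>
      intro u hu hch hR hhead v hv
      simp only [List.head?_cons, Option.some.injEq] at hhead
      subst hhead
      rcases List.mem_cons.1 hv with rfl | hv
      · exact hu
      cases R with
      | nil => simp at hv
      | cons b R =>
        rw [List.isChain_cons_cons] at hch
        exact ih b (hcl a hu b (hR b (by simp)) hch.1) hch.2
          (fun v hv => hR v (List.mem_cons_of_mem _ hv)) rfl v hv
  refine hvU (key R u hu h1 h3 h4 v ?_)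
  exact List.mem_of_getLast? h5

theorem pos_of (h : Longest G l) (x : V) : 0 < l.length := by
  have := h.2.2 [x] (by simp) (by simp)
  rw [List.length_singleton] at this
  omega

/-- the neighbours of `w` in the list `l` -/
noncomputable def onP (G : SimpleGraph V) [Fintype V] (l : List V) (w : V) : Finset V :=
  univ.filter fun v => v ∈ l ∧ G.Adj w v

theorem num_eq [Fintype V] (h : l.Nodup) (x w : V) :
    Sys.num G l.length (fun i => l.getD i x) w = (onP G l w).card := by
  unfold Sys.num onP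
  have hinj : Set.InjOn (fun i => l.getD i x)
      (((range l.length).filter fun k => G.Adj w (l.getD k x) : Finset ℕ) : Set ℕ) := by
    intro i hi j hj hij
    have h1 := mem_range.1 (mem_filter.1 (mem_coe.1 hi)).1
    have h2 := mem_range.1 (mem_filter.1 (mem_coe.1 hj)).1
    simp only at hij
    rw [List.getD_eq_getElem _ _ h1, List.getD_eq_getElem _ _ h2] at hij
    exact (List.Nodup.getElem_inj_iff h).1 hij
  rw [← card_image_of_injOn hinj]
  congr 1
  ext v
  simp only [mem_image, mem_filter, mem_range, mem_univ, true_and]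
  constructor
  · rintro ⟨k, ⟨h1, h2⟩, rfl⟩
    refine ⟨?_, h2⟩
    rw [List.getD_eq_getElem _ _ h1]
    exact List.getElem_mem h1
  · rintro ⟨h1, h2⟩
    obtain ⟨k, hk, rfl⟩ := List.getElem_of_mem h1
    exact ⟨k, ⟨hk, by rw [List.getD_eq_getElem _ _ hk]; exact h2⟩, List.getD_eq_getElem _ _ hk⟩

theorem ne_of (hG : G.Connected) (h : Longest G l) {x : V} (hx : x ∉ l) :
    (Sys.I G l.length (fun i => l.getD i x) (comp G l x)).Nonempty := by
  have hpos := pos_of h x
  obtain ⟨w⟩ := hG.preconnected x l[0]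
  obtain ⟨d, -, hd1, hd2⟩ := w.exists_boundary_dart (comp G l x) (self_comp hx)
    (fun h0 => comp_not _ h0 (List.getElem_mem hpos))
  have hd3 : d.snd ∈ l := by
    by_contra hcon
    exact hd2 (comp_closed hd1 d.adj hcon)
  obtain ⟨k, hk, hk'⟩ := List.getElem_of_mem hd3
  refine ⟨k, Sys.mem_I.2 ⟨hk, d.fst, hd1, ?_⟩⟩
  rw [List.getD_eq_getElem _ _ hk, hk']
  exact d.adj

theorem theSys (h : Longest G l) (x : V) :
    Sys G l.length (fun i => l.getD i x) (comp G l x) :=
  sys h (pos_of h x) comp_not (comp_link x) (comp_conn x) x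

theorem onP_le [Fintype V] (h : l.Nodup) (x : V) {c : V} (hc : c ∈ comp G l x) :
    (onP G l c).card ≤ (Sys.I G l.length (fun i => l.getD i x) (comp G l x)).card := by
  rw [← num_eq h x, Sys.num]
  refine card_le_card ?_
  intro k hk
  rw [mem_filter, mem_range] at hk
  exact Sys.mem_I.2 ⟨hk.1, c, hc, hk.2⟩

/-- **a vertex of the path has more neighbours on the path than the vertices of a component** -/
theorem more [Fintype V] (hG : G.Connected) (h5 : NoP5 G) (h : Longest G l) {x : V} (hx : x ∉ l) :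
    ∃ a ∈ l, (∃ c ∈ comp G l x, G.Adj c a) ∧
      (Sys.I G l.length (fun i => l.getD i x) (comp G l x)).card + 1 ≤ (onP G l a).card := by
  obtain ⟨i, hi, h1⟩ := (theSys h x).main h5 (ne_of hG h hx)
  obtain ⟨hiL, c, hc, hca⟩ := Sys.mem_I.1 hi
  refine ⟨l.getD i x, ?_, ⟨c, hc, hca⟩, ?_⟩
  · rw [List.getD_eq_getElem _ _ hiL]
    exact List.getElem_mem hiL
  · rw [num_eq h.2.1 x] at h1
    exact h1

/-- an induced fork: `a` adjacent to `s`, `t`, `u`, and `u` to `v` -/
def Fork (G : SimpleGraph V) (a s t u v : V) : Prop :=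
  G.Adj a s ∧ G.Adj a t ∧ G.Adj a u ∧ G.Adj u v ∧ s ≠ t ∧ ¬ G.Adj s t ∧ ¬ G.Adj s u ∧ ¬ G.Adj s v ∧
    ¬ G.Adj t u ∧ ¬ G.Adj t v ∧ ¬ G.Adj a v

/-- **a vertex of maximum degree off a longest path lies on the long leg of an induced fork** -/
theorem leg [Fintype V] (hG : G.Connected) (h5 : NoP5 G) (h : Longest G l) {x : V} (hx : x ∉ l)
    (hmax : ∀ y, G.degree y ≤ G.degree x) :
    ∃ a s t u v : V, Fork G a s t u v ∧ (u = x ∨ v = x) := by
  have S := theSys h x
  obtain ⟨i, hi, h1⟩ := S.main h5 (ne_of hG h hx)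
  obtain ⟨hiL, c, hc, hca⟩ := Sys.mem_I.1 hi
  have hxC : x ∈ comp G l x := self_comp hx
  obtain ⟨a, ha⟩ : ∃ a, a = l.getD i x := ⟨_, rfl⟩
  have hdeg : ∀ w : V, (∀ v, G.Adj w v → v ∉ l → v ∈ comp G l x) → G.degree w =
      (onP G l w).card + (univ.filter fun v => v ∈ comp G l x ∧ G.Adj w v).card := by
    intro w hw
    rw [onP, ← card_union_of_disjoint]
    · rw [← SimpleGraph.card_neighborFinset_eq_degree]
      congr 1
      ext v
      simp only [SimpleGraph.mem_neighborFinset, mem_union, mem_filter, mem_univ, true_and]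
      constructor
      · intro hv
        by_cases hvl : v ∈ l
        · exact Or.inl ⟨hvl, hv⟩
        · exact Or.inr ⟨hw v hv hvl, hv⟩
      · rintro (hv | hv)
        · exact hv.2
        · exact hv.2
    · rw [disjoint_left]
      intro v h1 h2
      exact comp_not _ (mem_filter.1 h2).2.1 (mem_filter.1 h1).2.1
  have hdega : (onP G l a).card + (univ.filter fun v => v ∈ comp G l x ∧ G.Adj a v).card ≤
      G.degree a := by
    rw [onP, ← card_union_of_disjoint, ← SimpleGraph.card_neighborFinset_eq_degree]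
    · refine card_le_card ?_
      intro v hv
      rw [SimpleGraph.mem_neighborFinset]
      rcases mem_union.1 hv with h | h
      · exact (mem_filter.1 h).2.2
      · exact (mem_filter.1 h).2.2
    · rw [disjoint_left]
      intro v h1 h2
      exact comp_not _ (mem_filter.1 h2).2.1 (mem_filter.1 h1).2.1
  have hdx := hdeg x (fun v hv hvl => comp_closed hxC hv hvl)
  have h2 := onP_le (G := G) h.2.1 x hxC
  have h3 : Sys.num G l.length (fun i => l.getD i x) a = (onP G l a).card := num_eq h.2.1 x a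
  have h4 := hmax a
  have h6 : (univ.filter fun v => v ∈ comp G l x ∧ G.Adj a v).card <
      (univ.filter fun v => v ∈ comp G l x ∧ G.Adj x v).card := by
    have h1' : (Sys.I G l.length (fun i => l.getD i x) (comp G l x)).card + 1 ≤
        (onP G l a).card := by
      rw [← h3, ha]
      exact h1
    omega
  obtain ⟨v, hv, hva⟩ : ∃ v ∈ (univ.filter fun v => v ∈ comp G l x ∧ G.Adj x v),
      v ∉ (univ.filter fun v => v ∈ comp G l x ∧ G.Adj a v) := by
    by_contra hcon
    push Not at hcon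
    exact absurd (card_le_card hcon) (by omega)
  rw [mem_filter] at hv hva
  have hvC := hv.2.1
  have hav : ¬ G.Adj a v := fun h => hva ⟨mem_univ _, hvC, h⟩
  by_cases hax : G.Adj a x
  · obtain ⟨s, t, e1, e2, e3, e4, e5, e6, e7, e8⟩ :=
      S.mixed h5 hi hxC hvC hv.2.2 (ha ▸ hax) (ha ▸ hav)
    exact ⟨a, s, t, x, v, ⟨ha ▸ e1, ha ▸ e2, hax, hv.2.2, e3, e4, e5, e6, e7, e8, hav⟩, Or.inl rfl⟩
  · have hsl := S.succ_lt hi
    have hsn := S.succ_not hi
    have hnear := S.near h5 (a := l.getD i x) (y := l.getD (i + 1) x) (S.adj i hsl).symm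
      (fun c hc => S.notC' hsl hsn hc) ⟨c, hc, hca.symm⟩ x hxC
    rw [← ha] at hnear
    rcases hnear with h | ⟨u, hu, hau, hux⟩
    · exact absurd h hax
    obtain ⟨s, t, e1, e2, e3, e4, e5, e6, e7, e8⟩ :=
      S.mixed h5 hi hu hxC hux (ha ▸ hau) (ha ▸ hax)
    exact ⟨a, s, t, u, x, ⟨ha ▸ e1, ha ▸ e2, hau, hux, e3, e4, e5, e6, e7, e8, hax⟩, Or.inr rfl⟩

end Pool.Agent.K7.H44.LP
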