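import Pool.Agent.K7.H44.LP.Step
import Pool.Agent.K7.H44.LP.Emb

/-!
# A common vertex of all longest paths
-/

set_option autoImplicit false

namespace Pool.Agent.K7.H44.LP

open Finset Classical

variable {V : Type*} {G : SimpleGraph V}

/-- **A common vertex.** Choose a longest path and a component of the rest so that the closed
neighbourhood of the component is as large as possible. -/
theorem common [Fintype V] (hG : G.Connected) (h5 : NoP5 G)
    (hD : ∀ a x s t u w : V, ¬ DStar G a x s t u w) :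
    ∃ a, ∀ P : List V, Longest G P → a ∈ P := by
  by_cases hall : ∃ (Q : List V) (x0 : V), Longest G Q ∧ x0 ∉ Q
  · have hbd : ∀ n, (∃ (Q : List V) (x0 : V), Longest G Q ∧ x0 ∉ Q ∧
        nc G (comp G Q x0) = n) → n ≤ Fintype.card V := by
      rintro n ⟨Q, x0, -, -, rfl⟩
      exact card_le_univ _
    have hne : ∃ n, ∃ (Q : List V) (x0 : V), Longest G Q ∧ x0 ∉ Q ∧ nc G (comp G Q x0) = n := by
      obtain ⟨Q, x0, h, h'⟩ := hall
      exact ⟨_, Q, x0, h, h', rfl⟩
    obtain ⟨n0, hn0⟩ := hne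
    obtain ⟨Q, x0, hQ, hx0, hn⟩ := Nat.findGreatest_spec
      (P := fun n => ∃ (Q : List V) (x0 : V), Longest G Q ∧ x0 ∉ Q ∧ nc G (comp G Q x0) = n)
      (hbd n0 hn0) hn0
    obtain ⟨i, hi, h1, h2⟩ := (theSys hQ x0 (G := G)).main' h5 (ne_of hG hQ hx0)
    refine ⟨Q.getD i x0, fun P hP => ?_⟩
    by_contra haP
    rcases step h5 hQ hP hi h1 h2 haP with h | ⟨a, x, s, t, u, w, h⟩
    · have h3 : ∃ (Q' : List V) (x1 : V), Longest G Q' ∧ x1 ∉ Q' ∧
          nc G (comp G Q' x1) = nc G (comp G P (Q.getD i x0)) := ⟨P, _, hP, haP, rfl⟩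
      have h4 := Nat.le_findGreatest
        (P := fun n => ∃ (Q : List V) (x0 : V), Longest G Q ∧ x0 ∉ Q ∧ nc G (comp G Q x0) = n)
        (hbd _ h3) h3
      omega
    · exact hD _ _ _ _ _ _ h
  · obtain ⟨a⟩ := hG.nonempty
    refine ⟨a, fun P hP => ?_⟩
    by_contra haP
    exact hall ⟨P, a, hP, haP⟩

/-- The double star with two leaves at each of its two centres: `0` is adjacent to `1`, `2`, `3`, and
`1` to `0`, `4`, `5`. -/
def doubleStar : SimpleGraph (Fin 6) :=
  SimpleGraph.fromEdgeSet {s(0, 1), s(0, 2), s(0, 3), s(1, 4), s(1, 5)}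

theorem dstar_emb {a x s t u w : V} (h : DStar G a x s t u w) : Nonempty (doubleStar ↪g G) := by
  obtain ⟨hax, has, hat, hxu, hxw, nst, nuw, hst, huw, hsx, htx, hau, haw, hsu, hsw, htu, htw⟩ := h
  have n1 : ∀ x, ¬ G.Adj x x := fun x => G.loopless.irrefl x
  have hxa := hax.symm
  have hsa := has.symm
  have hta := hat.symm
  have hux := hxu.symm
  have hwx := hxw.symm
  have hts : ¬ G.Adj t s := fun h => hst h.symm
  have hwu : ¬ G.Adj w u := fun h => huw h.symm
  have hxs : ¬ G.Adj x s := fun h => hsx h.symm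
  have hxt : ¬ G.Adj x t := fun h => htx h.symm
  have hua : ¬ G.Adj u a := fun h => hau h.symm
  have hwa : ¬ G.Adj w a := fun h => haw h.symm
  have hus : ¬ G.Adj u s := fun h => hsu h.symm
  have hws : ¬ G.Adj w s := fun h => hsw h.symm
  have hut : ¬ G.Adj u t := fun h => htu h.symm
  have hwt : ¬ G.Adj w t := fun h => htw h.symm
  have key : ∀ i j : Fin 6, G.Adj ((![a, x, s, t, u, w] : Fin 6 → V) i) (![a, x, s, t, u, w] j) ↔
      doubleStar.Adj i j := by
    intro i j
    rw [doubleStar, SimpleGraph.fromEdgeSet_adj]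
    fin_cases i <;> fin_cases j <;>
      simp [hax, has, hat, hxu, hxw, hst, huw, hsx, htx, hau, haw, hsu, hsw, htu, htw, hxa, hsa,
        hta, hux, hwx, hts, hwu, hxs, hxt, hua, hwa, hus, hws, hut, hwt, n1]
  have hinj : Function.Injective (![a, x, s, t, u, w] : Fin 6 → V) := by
    have nax : a ≠ x := hax.ne
    have nas : a ≠ s := has.ne
    have nat : a ≠ t := hat.ne
    have nau : a ≠ u := by rintro rfl; exact hsu hsa
    have naw : a ≠ w := by rintro rfl; exact hsw hsa
    have nxs : x ≠ s := by rintro rfl; exact hsu hxu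
    have nxt : x ≠ t := by rintro rfl; exact htu hxu
    have nxu : x ≠ u := hxu.ne
    have nxw : x ≠ w := hxw.ne
    have nsu : s ≠ u := by rintro rfl; exact hau has
    have nsw : s ≠ w := by rintro rfl; exact haw has
    have ntu : t ≠ u := by rintro rfl; exact hau hat
    have ntw : t ≠ w := by rintro rfl; exact haw hat
    intro i j hij
    fin_cases i <;> fin_cases j <;>
      simp_all [nax.symm, nas.symm, nat.symm, nau.symm, naw.symm, nxs.symm, nxt.symm, nxu.symm,
        nxw.symm, nst.symm, nsu.symm, nsw.symm, ntu.symm, ntw.symm, nuw.symm]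
  exact ⟨⟨⟨![a, x, s, t, u, w], hinj⟩, fun {i j} => key i j⟩⟩

end Pool.Agent.K7.H44.LP
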