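import Pool.Agent.K7.H44.LP.Step2

/-!
# A common vertex of all longest paths, second form
-/

set_option autoImplicit false

namespace Pool.Agent.K7.H44.LP

open Finset Classical

variable {V : Type*} {G : SimpleGraph V}

/-- the largest `n` with `phi G C n`, at most the number of vertices -/
noncomputable def pm [Fintype V] (G : SimpleGraph V) (C : Set V) : ℕ :=
  Nat.findGreatest (phi G C) (Fintype.card V)

theorem pm_spec [Fintype V] (C : Set V) : phi G C (pm G C) :=
  Nat.findGreatest_spec (P := phi G C) (Nat.zero_le (Fintype.card V)) (phi_one (by omega))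

/-- the measure of a component -/
noncomputable def mea [Fintype V] (G : SimpleGraph V) (C : Set V) : ℕ :=
  pm G C * (Fintype.card V + 1) + nc G C

theorem nc_le [Fintype V] (C : Set V) : nc G C ≤ Fintype.card V := card_le_univ _

theorem pm_le [Fintype V] (C : Set V) : pm G C ≤ Fintype.card V := Nat.findGreatest_le _

theorem mea_le [Fintype V] (C : Set V) :
    mea G C ≤ Fintype.card V * (Fintype.card V + 1) + Fintype.card V :=
  Nat.add_le_add (Nat.mul_le_mul_right _ (pm_le C)) (nc_le C)

/-- **A common vertex.** -/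
theorem common2 [Fintype V] (hG : G.Connected) (h5 : NoP5 G)
    (hK : ∀ a b d c c' q g : V, ¬ Kite G a b d c c' q g) :
    ∃ a, ∀ P : List V, Longest G P → a ∈ P := by
  by_cases hall : ∃ (Q : List V) (x0 : V), Longest G Q ∧ x0 ∉ Q
  · obtain ⟨Q', x0', hQ', hx0'⟩ := hall
    set B := Fintype.card V * (Fintype.card V + 1) + Fintype.card V with hB
    obtain ⟨Q, x0, hQ, hx0, hn⟩ := Nat.findGreatest_spec
      (P := fun n => ∃ (Q : List V) (x0 : V), Longest G Q ∧ x0 ∉ Q ∧ mea G (comp G Q x0) = n)
      (n := B) (mea_le (comp G Q' x0')) ⟨Q', x0', hQ', hx0', rfl⟩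
    obtain ⟨i, hi, h1, h2, h3⟩ := (theSys hQ x0 (G := G)).main2 h5 (ne_of hG hQ hx0)
    refine ⟨Q.getD i x0, fun P hP => ?_⟩
    by_contra haP
    have h4 := Nat.le_findGreatest
      (P := fun n => ∃ (Q : List V) (x0 : V), Longest G Q ∧ x0 ∉ Q ∧ mea G (comp G Q x0) = n)
      (n := B) (mea_le (comp G P (Q.getD i x0))) ⟨P, _, hP, haP, rfl⟩
    rw [← hn] at h4
    rcases step2 h5 hQ hP hi h1 h2 h3 haP with ⟨e1, e2⟩ | ⟨m, e1, e2, e3⟩ |
      ⟨a, b, d, c, c', q, g, h⟩
    · have e3 : pm G (comp G Q x0) ≤ pm G (comp G P (Q.getD i x0)) :=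
        Nat.le_findGreatest (pm_le _) (e1 _ (pm_spec _))
      have e4 := Nat.mul_le_mul_right (Fintype.card V + 1) e3
      unfold mea at h4
      omega
    · have e4 := e1 _ (pm_spec _)
      have e5 : m + 1 ≤ pm G (comp G P (Q.getD i x0)) := Nat.le_findGreatest e3 e2
      have e6 : pm G (comp G Q x0) + 1 ≤ pm G (comp G P (Q.getD i x0)) := by omega
      have e7 := Nat.mul_le_mul_right (Fintype.card V + 1) e6
      have e8 := nc_le (G := G) (comp G Q x0)
      unfold mea at h4
      rw [Nat.add_mul] at e7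
      omega
    · exact hK _ _ _ _ _ _ _ h
  · obtain ⟨a⟩ := hG.nonempty
    refine ⟨a, fun P hP => ?_⟩
    by_contra haP
    exact hall ⟨P, a, hP, haP⟩

/-- The graph with the vertices `0, …, 6` in which `0`, `1`, `2` are adjacent to `3`, `4`, `5`, and
`3` is adjacent to `4`, and `5` to `6`. -/
def kite : SimpleGraph (Fin 7) :=
  SimpleGraph.fromEdgeSet {s(0, 3), s(0, 4), s(0, 5), s(1, 3), s(1, 4), s(1, 5), s(2, 3), s(2, 4),
    s(2, 5), s(3, 4), s(5, 6)}

theorem kite_emb {a b e c d q g : V} (h : Kite G a b e c d q g) : Nonempty (kite ↪g G) := by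
  obtain ⟨⟨nab, nae, nbe⟩, ⟨hab, hae, hbe⟩, ⟨hac, had, haq⟩, ⟨hbc, hbd, hbq⟩, ⟨hec, hed, heq⟩, hcd,
    hqg, ⟨hcq, hdq⟩, ⟨hag, hbg, heg, hcg, hdg⟩⟩ := h
  have n1 : ∀ x, ¬ G.Adj x x := fun x => G.loopless.irrefl x
  have hca := hac.symm
  have hda := had.symm
  have hqa := haq.symm
  have hcb := hbc.symm
  have hdb := hbd.symm
  have hqb := hbq.symm
  have hce := hec.symm
  have hde := hed.symm
  have hqe := heq.symm
  have hdc := hcd.symm
  have hgq := hqg.symm
  have hba : ¬ G.Adj b a := fun h => hab h.symm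
  have hea : ¬ G.Adj e a := fun h => hae h.symm
  have heb : ¬ G.Adj e b := fun h => hbe h.symm
  have hqc : ¬ G.Adj q c := fun h => hcq h.symm
  have hqd : ¬ G.Adj q d := fun h => hdq h.symm
  have hga : ¬ G.Adj g a := fun h => hag h.symm
  have hgb : ¬ G.Adj g b := fun h => hbg h.symm
  have hge : ¬ G.Adj g e := fun h => heg h.symm
  have hgc : ¬ G.Adj g c := fun h => hcg h.symm
  have hgd : ¬ G.Adj g d := fun h => hdg h.symm
  have key : ∀ i j : Fin 7, G.Adj ((![a, b, e, c, d, q, g] : Fin 7 → V) i)
      (![a, b, e, c, d, q, g] j) ↔ kite.Adj i j := by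
    intro i j
    rw [kite, SimpleGraph.fromEdgeSet_adj]
    fin_cases i <;> fin_cases j <;>
      simp [hac, had, haq, hbc, hbd, hbq, hcd, hqg, hab, hcq, hdq, hag, hbg, hcg, hdg, hca, hda,
        hqa, hcb, hdb, hqb, hdc, hgq, hba, hqc, hqd, hga, hgb, hgc, hgd, hae, hbe, hec, hed, heq,
        heg, hce, hde, hqe, hea, heb, hge]
  have nac : a ≠ c := hac.ne
  have nad : a ≠ d := had.ne
  have naq : a ≠ q := haq.ne
  have nag : a ≠ g := by rintro rfl; exact hcg hca
  have nbc : b ≠ c := hbc.ne
  have nbd : b ≠ d := hbd.ne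
  have nbq : b ≠ q := hbq.ne
  have nbg : b ≠ g := by rintro rfl; exact hcg hcb
  have nec : e ≠ c := hec.ne
  have ned : e ≠ d := hed.ne
  have neq : e ≠ q := heq.ne
  have neg : e ≠ g := by rintro rfl; exact hcg hce
  have ncd : c ≠ d := hcd.ne
  have ncq : c ≠ q := by rintro rfl; exact hdq hdc
  have ncg : c ≠ g := by rintro rfl; exact hag hac
  have ndq : d ≠ q := by rintro rfl; exact hcq hcd
  have ndg : d ≠ g := by rintro rfl; exact hag had
  have nqg : q ≠ g := hqg.ne
  have hinj : Function.Injective (![a, b, e, c, d, q, g] : Fin 7 → V) := by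
    intro i j hij
    clear key hac had haq hbc hbd hbq hcd hqg hab hcq hdq hag hbg hcg hdg hca hda hqa hcb hdb hqb hdc
      hgq hba hqc hqd hga hgb hgc hgd hae hbe hec hed heq heg hce hde hqe hea heb hge n1
    fin_cases i <;> fin_cases j <;>
      first
        | rfl
        | (exfalso
           simp only [Fin.zero_eta, Fin.mk_one, Fin.reduceFinMk, Matrix.cons_val] at hij
           first
            | exact nab hij | exact nae hij | exact nac hij | exact nad hij | exact naq hij
            | exact nag hij | exact nbe hij | exact nbc hij | exact nbd hij | exact nbq hij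
            | exact nbg hij | exact nec hij | exact ned hij | exact neq hij | exact neg hij
            | exact ncd hij | exact ncq hij | exact ncg hij | exact ndq hij | exact ndg hij
            | exact nqg hij
            | exact nab hij.symm | exact nae hij.symm | exact nac hij.symm | exact nad hij.symm
            | exact naq hij.symm | exact nag hij.symm | exact nbe hij.symm | exact nbc hij.symm
            | exact nbd hij.symm | exact nbq hij.symm | exact nbg hij.symm | exact nec hij.symm
            | exact ned hij.symm | exact neq hij.symm | exact neg hij.symm | exact ncd hij.symm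
            | exact ncq hij.symm | exact ncg hij.symm | exact ndq hij.symm | exact ndg hij.symm
            | exact nqg hij.symm)
  exact ⟨⟨⟨![a, b, e, c, d, q, g], hinj⟩, fun {i j} => key i j⟩⟩

end Pool.Agent.K7.H44.LP
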