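import Pool.Agent.K7.H44.LP.Last2
import Pool.Agent.K7.H44.LP.Step3

/-!
# Two vertices which meet all longest paths
-/

set_option autoImplicit false

namespace Pool.Agent.K7.H44.LP

open Finset Classical

variable {V : Type*} {G : SimpleGraph V}

/-- **Two vertices which meet all longest paths.** -/
theorem two [Fintype V] (hG : G.Connected) (h5 : NoP5 G) :
    ∃ a c, (a = c ∨ G.Adj a c) ∧ ∀ P : List V, Longest G P → a ∈ P ∨ c ∈ P := by
  by_cases hall : ∃ (Q : List V) (x0 : V), Longest G Q ∧ x0 ∉ Q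
  · obtain ⟨Q', x0', hQ', hx0'⟩ := hall
    set B := Fintype.card V * (Fintype.card V + 1) + Fintype.card V with hB
    obtain ⟨Q, x0, hQ, hx0, hn⟩ := Nat.findGreatest_spec
      (P := fun n => ∃ (Q : List V) (x0 : V), Longest G Q ∧ x0 ∉ Q ∧ mea G (comp G Q x0) = n)
      (n := B) (mea_le (comp G Q' x0')) ⟨Q', x0', hQ', hx0', rfl⟩
    obtain ⟨i, hi, h1, h2, h3⟩ := (theSys hQ x0 (G := G)).main2 h5 (ne_of hG hQ hx0)
    obtain ⟨-, c, hc, hca⟩ := Sys.mem_I.1 hi
    refine ⟨Q.getD i x0, c, Or.inr hca.symm, fun P hP => ?_⟩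
    by_contra hcon
    rw [not_or] at hcon
    obtain ⟨haP, hcP⟩ := hcon
    have h4 := Nat.le_findGreatest
      (P := fun n => ∃ (Q : List V) (x0 : V), Longest G Q ∧ x0 ∉ Q ∧ mea G (comp G Q x0) = n)
      (n := B) (mea_le (comp G P (Q.getD i x0))) ⟨P, _, hP, haP, rfl⟩
    rw [← hn] at h4
    rcases step3 h5 hQ hP hi h1 h2 h3 haP with ⟨e1, e2⟩ | ⟨m, e1, e2, e3⟩ | h
    · have e3 : pm G (comp G Q x0) ≤ pm G (comp G P (Q.getD i x0)) :=
        Nat.le_findGreatest (pm_le _) (e1 _ (pm_spec _))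
      have e4 := Nat.mul_le_mul_right (Fintype.card V + 1) e3
      unfold mea at h4
      omega
    · have e4 := e1 _ (pm_spec _)
      have e5 : m + 1 ≤ pm G (comp G P (Q.getD i x0)) := Nat.le_findGreatest e3 e2
      have e6 : pm G (comp G Q x0) + 1 ≤ pm G (comp G P (Q.getD i x0)) := by omega
      have e7 := Nat.mul_le_mul_right (Fintype.card V + 1) e6
      have e8 := nc_le (G := G) (comp G Q x0)
      unfold mea at h4
      rw [Nat.add_mul] at e7
      omega
    · exact hcP (h c hc)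
  · obtain ⟨a⟩ := hG.nonempty
    refine ⟨a, a, Or.inl rfl, fun P hP => ?_⟩
    by_contra haP
    rw [not_or] at haP
    exact hall ⟨P, a, hP, haP.1⟩

end Pool.Agent.K7.H44.LP
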