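import Pool.Agent.K7.H44.LP.Step

/-!
# Paths in a component which start at an attachment
-/

set_option autoImplicit false

namespace Pool.Agent.K7.H44.LP

open Finset Classical

variable {V : Type*} {G : SimpleGraph V}

namespace Sys

variable {L : ℕ} {p : ℕ → V} {C : Set V}

theorem claim2 (S : Sys G L p C) (h5 : NoP5 G) {i0 j z : ℕ} (hi0 : i0 ∈ I G L p C)
    (hj : j ∈ I G L p C) (hmax : ¬ tau G L p C (p i0) ⊂ tau G L p C (p j))
    (hz : z < L) (hzI : z ∉ I G L p C) (hjz : G.Adj (p j) (p z)) (hind : Ind G L p C z)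
    (hnon : ¬ G.Adj (p i0) (p j)) : cell G L p C z ∈ tau G L p C (p i0) := by
  by_contra hcon
  have hzj : cell G L p C z ∈ tau G L p C (p j) := mem_tau.2 ⟨z, hz, hzI, hjz, rfl⟩
  obtain ⟨T, hT, hT'⟩ : ∃ T ∈ tau G L p C (p i0), T ∉ tau G L p C (p j) := by
    by_contra h
    push Not at h
    exact hmax ⟨h, fun h' => hcon (h' hzj)⟩
  obtain ⟨k, hk, hkI, hak, rfl⟩ := mem_tau.1 hT
  have hjk : ∀ m ∈ cell G L p C k, ¬ G.Adj (p j) (p m) := by
    intro m hm h
    exact hT' (mem_tau.2 ⟨m, (mem_cell.1 hm).1, not_I_of_cell hm, h, cell_eq hk hm⟩)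
  obtain ⟨_, cj, hcj, hcjj⟩ := mem_I.1 hj
  obtain ⟨_, ci, hci, hcii⟩ := mem_I.1 hi0
  -- (i)
  have hzk : ∀ m ∈ cell G L p C k, ¬ G.Adj (p z) (p m) := by
    intro m hm h
    obtain ⟨m', hm', h'⟩ := hind k hk hkI
    obtain ⟨y, hy, y', hy', h1, h2, h3⟩ := S.edge hk hm hm' h h'
    have yL := (mem_cell.1 hy).1
    have yL' := (mem_cell.1 hy').1
    exact h5 cj (p j) (p z) (p y) (p y') hcjj hjz h2 h1 (S.notC hz hzI hcj)
      (S.notC yL (not_I_of_cell hy) hcj) (S.notC yL' (not_I_of_cell hy') hcj)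
      (hjk y hy) (hjk y' hy') h3
  have hkk := self_mem hk hkI
  -- (ii) a common neighbour
  obtain ⟨c, hc, hc1, hc2⟩ : ∃ c ∈ C, G.Adj (p i0) c ∧ G.Adj c (p j) := by
    rcases S.near h5 hak.symm (fun c hc => S.notC' hk hkI hc) ⟨ci, hci, hcii.symm⟩ cj hcj with h | h
    · exact ⟨cj, hcj, h, hcjj⟩
    · obtain ⟨u, hu, hau, huc⟩ := h
      by_cases huj : G.Adj u (p j)
      · exact ⟨u, hu, hau, huj⟩
      by_cases hacj : G.Adj (p i0) cj
      · exact ⟨cj, hcj, hacj, hcjj⟩
      exact (h5 (p k) (p i0) u cj (p j) hak.symm hau huc hcjj (S.notC' hk hkI hu)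
        (S.notC' hk hkI hcj) (fun h => hjk k hkk h.symm) hacj hnon huj).elim
  -- (iii)
  have haz : ¬ G.Adj (p i0) (p z) := fun h => hcon (mem_tau.2 ⟨z, hz, hzI, h, rfl⟩)
  exact h5 (p k) (p i0) c (p j) (p z) hak.symm hc1 hc2 hjz (S.notC' hk hkI hc)
    (fun h => hjk k hkk h.symm) (fun h => hzk k hkk h.symm) hnon haz (S.notC hz hzI hc)


/-- the main lemma with the neighbours of the segments next to the non-neighbours -/
theorem main2 (S : Sys G L p C) (h5 : NoP5 G) (hne : (I G L p C).Nonempty) :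
    ∃ i ∈ I G L p C, (I G L p C).card + 1 ≤ num G L p (p i) ∧
      (∀ j ∈ I G L p C, ¬ G.Adj (p i) (p j) →
        cell G L p C (j + 1) ∈ tau G L p C (p i) ∧ cell G L p C (j - 1) ∈ tau G L p C (p i)) ∧
      cell G L p C 0 ∈ tau G L p C (p i) := by
  have hj0 := min'_mem (I G L p C) hne
  set j0 := (I G L p C).min' hne with hj0'
  have hc0 : cell G L p C 0 ∈ tau G L p C (p j0) := by
    have h1 := S.succ_lt hj0
    have h3 := S.pos hj0
    have h4 : G.Adj (p j0) (p (j0 - 1)) := by
      have := S.adj (j0 - 1) (by omega)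
      rw [show j0 - 1 + 1 = j0 by omega] at this
      exact this.symm
    have h0 : (0 : ℕ) ∉ I G L p C := fun h => by
      have := S.pos h
      omega
    refine mem_tau.2 ⟨j0 - 1, by omega, S.pred_not hj0, h4, ?_⟩
    refine cell_eq (by omega) (mem_cell.2 ⟨by omega, fun i hi hc => ?_⟩)
    have : j0 ≤ i := min'_le _ _ hi
    omega
  obtain ⟨i0, hi0F, hmax0⟩ := exists_max_image
    ((I G L p C).filter fun i => cell G L p C 0 ∈ tau G L p C (p i))
    (fun i => (tau G L p C (p i)).card) ⟨j0, mem_filter.2 ⟨hj0, hc0⟩⟩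
  have hi0 := (mem_filter.1 hi0F).1
  have hi0c := (mem_filter.1 hi0F).2
  have hmax : ∀ j ∈ I G L p C, ¬ tau G L p C (p i0) ⊂ tau G L p C (p j) := by
    intro j hj hs
    have := hmax0 j (mem_filter.2 ⟨hj, hs.1 hi0c⟩)
    have := card_lt_card hs
    omega
  have hboth : ∀ j ∈ I G L p C, ¬ G.Adj (p i0) (p j) →
        cell G L p C (j + 1) ∈ tau G L p C (p i0) ∧ cell G L p C (j - 1) ∈ tau G L p C (p i0) := by
    intro j hj hn
    have h1 := S.succ_lt hj
    have h2 := S.succ_not hj
    have h3 := S.pos hj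
    have h4 : G.Adj (p j) (p (j - 1)) := by
      have := S.adj (j - 1) (by omega)
      rw [show j - 1 + 1 = j by omega] at this
      exact this.symm
    exact ⟨S.claim2 h5 hi0 hj (hmax j hj) h1 h2 (S.adj j h1) (S.ind_succ hj) hn,
      S.claim2 h5 hi0 hj (hmax j hj) (by omega) (S.pred_not hj) h4 (S.ind_pred hj) hn⟩
  refine ⟨i0, hi0, ?_, hboth, hi0c⟩
  set X := (I G L p C).filter fun j => ¬ G.Adj (p i0) (p j) with hX
  have hi0X : i0 ∈ X := by
    rw [hX, mem_filter]
    exact ⟨hi0, G.loopless.irrefl _⟩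
  have hXne : X.Nonempty := ⟨i0, hi0X⟩
  set j1 := X.min' hXne with hj1
  have hj1X : j1 ∈ X := min'_mem _ hXne
  have hj1I : j1 ∈ I G L p C := (mem_filter.1 hj1X).1
  have hinj : Set.InjOn (fun j => cell G L p C (j + 1)) (X : Set ℕ) := by
    intro j hj j' hj' h
    simp only at h
    have hjI := (mem_filter.1 (mem_coe.1 hj)).1
    have hjI' := (mem_filter.1 (mem_coe.1 hj')).1
    have h1 : j + 1 ∈ cell G L p C (j' + 1) := h ▸ self_mem (S.succ_lt hjI) (S.succ_not hjI)
    have h2 := (mem_cell.1 h1).2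
    have h3 := h2 j hjI
    have h4 := h2 j' hjI'
    omega
  have hnot : cell G L p C (j1 - 1) ∉ X.image fun j => cell G L p C (j + 1) := by
    intro h
    obtain ⟨j, hj, h'⟩ := mem_image.1 h
    have hjI := (mem_filter.1 hj).1
    have hle : j1 ≤ j := min'_le _ _ hj
    have h1 : j + 1 ∈ cell G L p C (j1 - 1) := h' ▸ self_mem (S.succ_lt hjI) (S.succ_not hjI)
    have h2 := (mem_cell.1 h1).2 j1 hj1I
    omega
  have hcard : X.card + 1 ≤ (tau G L p C (p i0)).card := by
    rw [← card_image_of_injOn hinj, ← card_insert_of_notMem hnot]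
    refine card_le_card ?_
    intro T hT
    rcases mem_insert.1 hT with rfl | hT
    · exact (hboth j1 hj1I (mem_filter.1 hj1X).2).2
    · obtain ⟨j, hj, rfl⟩ := mem_image.1 hT
      exact (hboth j (mem_filter.1 hj).1 (mem_filter.1 hj).2).1
  have hcard2 : (tau G L p C (p i0)).card ≤
      ((range L).filter fun k => k ∉ I G L p C ∧ G.Adj (p i0) (p k)).card := card_image_le
  have hcard3 : ((I G L p C).filter fun j => G.Adj (p i0) (p j)).card + X.card =
      (I G L p C).card := by
    rw [hX]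
    exact card_filter_add_card_filter_not (s := I G L p C) (fun j => G.Adj (p i0) (p j))
  have hcard4 : ((range L).filter fun k => k ∉ I G L p C ∧ G.Adj (p i0) (p k)).card +
      ((I G L p C).filter fun j => G.Adj (p i0) (p j)).card ≤ num G L p (p i0) := by
    rw [num, ← card_union_of_disjoint]
    · refine card_le_card ?_
      intro k hk
      rcases mem_union.1 hk with h | h
      · rw [mem_filter] at h ⊢
        exact ⟨h.1, h.2.2⟩
      · rw [mem_filter] at h ⊢
        exact ⟨mem_range.2 (mem_I.1 h.1).1, h.2⟩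
    · rw [disjoint_left]
      intro k h1 h2
      exact (mem_filter.1 h1).2.1 (mem_filter.1 h2).1
  omega


end Sys

theorem firstSat {R : List V} (pr : V → Prop) (h : ∃ v ∈ R, pr v) :
    ∃ R1 w R2, R = R1 ++ w :: R2 ∧ pr w ∧ ∀ v ∈ R1, ¬ pr v := by
  induction R with
  | nil => simp at h
  | cons a R ih =>
    by_cases ha : pr a
    · exact ⟨[], a, R, rfl, ha, by simp⟩
    · obtain ⟨v, hv, hpv⟩ := h
      rcases List.mem_cons.1 hv with rfl | hv
      · exact absurd hpv ha
      · obtain ⟨R1, w, R2, h1, h2, h3⟩ := ih ⟨v, hv, hpv⟩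
        refine ⟨a :: R1, w, R2, by rw [h1]; rfl, h2, ?_⟩
        intro v hv
        rcases List.mem_cons.1 hv with rfl | hv
        · exact ha
        · exact h3 v hv

/-- from each vertex attached to `C` starts a path in `C` with at least `n` vertices -/
def phi (G : SimpleGraph V) (C : Set V) (n : ℕ) : Prop :=
  ∀ σ ∉ C, ∀ c ∈ C, G.Adj c σ → ∃ R : List V, R.IsChain G.Adj ∧ R.Nodup ∧ (∀ v ∈ R, v ∈ C) ∧
    n ≤ R.length ∧ ∃ c' ∈ R.head?, G.Adj c' σ

theorem phi_one {C : Set V} {n : ℕ} (hn : n ≤ 1) : phi G C n := by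
  intro σ _ c hc h
  exact ⟨[c], by simp, by simp, by simpa using hc, by simpa using hn, c, by simp, h⟩

theorem phi_sub {C C' : Set V} (hsub : C ⊆ C') (hL : Link G C') {c1 : V} (hc1 : c1 ∈ C) {n : ℕ}
    (h : phi G C n) : phi G C' n := by
  intro σ hσ c hc hcσ
  by_cases hcC : c ∈ C
  · obtain ⟨R, r1, r2, r3, r4, r5⟩ := h σ (fun h => hσ (hsub h)) c hcC hcσ
    exact ⟨R, r1, r2, fun v hv => hsub (r3 v hv), r4, r5⟩
  · obtain ⟨R, r1, r2, r3, r4, r5⟩ := hL c hc c1 (hsub hc1)
    obtain ⟨R1, w, R2, e1, e2, e3⟩ := firstSat (R := R) (fun v => v ∈ C)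
      ⟨c1, List.mem_of_getLast? r5, hc1⟩
    subst e1
    have hne : R1 ≠ [] := by
      rintro rfl
      simp only [List.nil_append, List.head?_cons, Option.some.injEq] at r4
      exact hcC (r4 ▸ e2)
    rw [List.isChain_append] at r1
    obtain ⟨r1a, -, r1c⟩ := r1
    rw [List.nodup_append] at r2
    have hz := List.getLast?_eq_some_getLast hne
    have hzw := r1c _ hz w (by simp)
    obtain ⟨R', s1, s2, s3, s4, c', s5, s6⟩ := h _ (e3 _ (List.getLast_mem hne)) w e2 hzw.symm
    refine ⟨R1 ++ R', ?_, ?_, ?_, ?_, c, ?_, hcσ⟩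
    · rw [List.isChain_append]
      refine ⟨r1a, s1, ?_⟩
      intro x hx y hy
      rw [hz] at hx
      simp only [Option.mem_def, Option.some.injEq] at hx
      rw [Option.mem_def] at hy s5
      rw [s5] at hy
      simp only [Option.some.injEq] at hy
      subst hx
      subst hy
      exact s6.symm
    · rw [List.nodup_append]
      refine ⟨r2.1, s2, ?_⟩
      rintro x hx y hy rfl
      exact e3 x hx (s3 x hy)
    · intro v hv
      rcases List.mem_append.1 hv with hv | hv
      · exact r3 v (List.mem_append_left _ hv)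
      · exact hsub (s3 v hv)
    · rw [List.length_append]
      omega
    · cases R1 with
      | nil => exact absurd rfl hne
      | cons x R1 => simpa using r4

theorem phi_len {Q : List V} (hQ : Longest G Q) {x0 : V} {j n : ℕ}
    (hj : j ∈ Sys.I G Q.length (fun i => Q.getD i x0) (comp G Q x0))
    (h : phi G (comp G Q x0) n) : n ≤ j := by
  obtain ⟨hjL, c, hc, hcj⟩ := Sys.mem_I.1 hj
  rw [List.getD_eq_getElem _ _ hjL] at hcj
  obtain ⟨R, r1, r2, r3, r4, c', r5, r6⟩ := h Q[j] (fun h => comp_not _ h (List.getElem_mem hjL)) c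
    hc hcj
  have hsp : Q.take j ++ Q.drop j = Q := List.take_append_drop j Q
  have hch := hQ.1
  rw [← hsp, List.isChain_append] at hch
  have h1 := hQ.2.2 (R.reverse ++ Q.drop j) (by
    rw [List.isChain_append]
    refine ⟨?_, hch.2.1, ?_⟩
    · rw [List.isChain_reverse]
      exact r1.imp fun _ _ h => h.symm
    · intro x hx y hy
      rw [List.getLast?_reverse] at hx
      rw [List.head?_eq_getElem?, List.getElem?_drop, Nat.add_zero,
        List.getElem?_eq_getElem hjL] at hy
      rw [Option.mem_def] at hx r5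
      rw [r5] at hx
      simp only [Option.mem_def, Option.some.injEq] at hx hy
      subst hx
      subst hy
      exact r6) (by
    rw [List.nodup_append]
    refine ⟨List.nodup_reverse.2 r2, hQ.2.1.sublist (List.drop_sublist j Q), ?_⟩
    rintro x hx y hy rfl
    exact comp_not _ (r3 x (List.mem_reverse.1 hx)) (List.mem_of_mem_drop hy))
  rw [List.length_append, List.length_reverse, List.length_drop] at h1
  omega

theorem phi_fin {C : Set V} (hL : Link G C) {a : V} (ha : a ∈ C) {D : List V}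
    (h1 : D.IsChain G.Adj) (h2 : D.Nodup) (h3 : ∀ v ∈ D, v ∈ C) (h4 : ∀ v ∈ D, G.Adj a v) :
    phi G C (D.length + 1) := by
  intro σ hσ c hc hcσ
  have haD : a ∉ D := fun h => G.loopless.irrefl a (h4 a h)
  obtain ⟨R, r1, r2, r3, r4, r5⟩ := hL c hc a ha
  obtain ⟨R1, w, R2, e1, e2, e3⟩ := firstSat (R := R) (fun v => v = a ∨ v ∈ D)
    ⟨a, List.mem_of_getLast? r5, Or.inl rfl⟩
  subst e1
  rw [List.isChain_append] at r1
  obtain ⟨r1a, -, r1c⟩ := r1
  rw [List.nodup_append] at r2
  have hlast : ∀ x ∈ R1.getLast?, G.Adj x w := fun x hx => r1c x hx w (by simp)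
  have hnd : (R1 ++ a :: D).Nodup := by
    rw [List.nodup_append]
    refine ⟨r2.1, List.nodup_cons.2 ⟨haD, h2⟩, ?_⟩
    rintro x hx y hy rfl
    rcases List.mem_cons.1 hy with h | h
    · exact e3 x hx (Or.inl h)
    · exact e3 x hx (Or.inr h)
  have hin : ∀ v ∈ R1 ++ a :: D, v ∈ C := by
    intro v hv
    rcases List.mem_append.1 hv with hv | hv
    · exact r3 v (List.mem_append_left _ hv)
    · rcases List.mem_cons.1 hv with rfl | hv
      · exact ha
      · exact h3 v hv
  by_cases hwa : w = a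
  · subst hwa
    refine ⟨R1 ++ w :: D, ?_, hnd, hin, by simp only [List.length_append, List.length_cons]; omega,
      c, ?_, hcσ⟩
    · rw [List.isChain_append, List.isChain_cons]
      refine ⟨r1a, ⟨fun y hy => h4 y (List.mem_of_mem_head? hy), h1⟩, ?_⟩
      intro x hx y hy
      simp only [List.head?_cons, Option.mem_def, Option.some.injEq] at hy
      subst hy
      exact hlast x hx
    · cases R1 with
      | nil => simpa using r4
      | cons x R1 => simpa using r4
  · have hwD : w ∈ D := e2.resolve_left hwa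
    obtain ⟨T1, T2, hT⟩ := List.append_of_mem hwD
    have hp : (R1 ++ ((T1 ++ [w]).reverse ++ a :: T2)).Perm (R1 ++ a :: D) := by
      rw [List.perm_iff_count]
      intro v
      rw [hT]
      simp only [List.count_append, List.count_reverse, List.count_cons, List.count_nil]
      omega
    have hT' : D = (T1 ++ [w]) ++ T2 := by rw [hT]; simp
    have h1' := h1
    rw [hT', List.isChain_append] at h1'
    refine ⟨R1 ++ ((T1 ++ [w]).reverse ++ a :: T2), ?_, hp.nodup_iff.2 hnd,
      fun v hv => hin v (hp.mem_iff.1 hv), ?_, c, ?_, hcσ⟩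
    · rw [List.isChain_append, List.isChain_append, List.isChain_cons]
      refine ⟨r1a, ⟨?_, ⟨?_, h1'.2.1⟩, ?_⟩, ?_⟩
      · rw [List.isChain_reverse]
        exact h1'.1.imp fun _ _ h => h.symm
      · intro y hy
        refine h4 y ?_
        rw [hT']
        exact List.mem_append_right _ (List.mem_of_mem_head? hy)
      · intro x hx y hy
        rw [List.getLast?_reverse] at hx
        simp only [List.head?_cons, Option.mem_def, Option.some.injEq] at hy
        subst hy
        refine (h4 x ?_).symm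
        rw [hT']
        exact List.mem_append_left _ (List.mem_of_mem_head? hx)
      · intro x hx y hy
        simp only [List.reverse_append, List.reverse_cons, List.reverse_nil, List.nil_append,
          List.cons_append, List.head?_cons, Option.mem_def, Option.some.injEq] at hy
        subst hy
        exact hlast x hx
    · rw [hp.length_eq, List.length_append, List.length_cons]
      omega
    · cases R1 with
      | nil => simpa using r4
      | cons x R1 => simpa using r4

end Pool.Agent.K7.H44.LP
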