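import Pool.Agent.K7.H44.LP.Two
import Pool.Agent.K7.H44.LP.Ex3

/-!
# Comparison of two longest paths
-/

set_option autoImplicit false

namespace Pool.Agent.K7.H44.LP

open Finset Classical

variable {V : Type*} {G : SimpleGraph V}

/-- an induced double star: `a` adjacent to `x`, `s`, `t`, and `x` to `u`, `w` -/
def DStar (G : SimpleGraph V) (a x s t u w : V) : Prop :=
  G.Adj a x ∧ G.Adj a s ∧ G.Adj a t ∧ G.Adj x u ∧ G.Adj x w ∧ s ≠ t ∧ u ≠ w ∧
  ¬ G.Adj s t ∧ ¬ G.Adj u w ∧ ¬ G.Adj s x ∧ ¬ G.Adj t x ∧ ¬ G.Adj a u ∧ ¬ G.Adj a w ∧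
  ¬ G.Adj s u ∧ ¬ G.Adj s w ∧ ¬ G.Adj t u ∧ ¬ G.Adj t w

/-- the number of vertices of the closed neighbourhood -/
noncomputable def nc [Fintype V] (G : SimpleGraph V) (C : Set V) : ℕ :=
  (univ.filter fun v => v ∈ NC G C).card

theorem idx {l : List V} {v : V} (x : V) (h : v ∈ l) : ∃ k < l.length, l.getD k x = v := by
  obtain ⟨k, hk, rfl⟩ := List.getElem_of_mem h
  exact ⟨k, hk, List.getD_eq_getElem _ _ hk⟩

theorem getD_mem {l : List V} (x : V) {k : ℕ} (hk : k < l.length) : l.getD k x ∈ l := by
  rw [List.getD_eq_getElem _ _ hk]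
  exact List.getElem_mem hk

/-- the attachments of a component -/
theorem att {l : List V} {x0 v : V} (hv : v ∉ comp G l x0) {c : V} (hc : c ∈ comp G l x0)
    (h : G.Adj c v) : ∃ j ∈ Sys.I G l.length (fun i => l.getD i x0) (comp G l x0),
      l.getD j x0 = v := by
  have hvl : v ∈ l := by
    by_contra hcon
    exact hv (comp_closed hc h hcon)
  obtain ⟨k, hk, rfl⟩ := idx x0 hvl
  exact ⟨k, Sys.mem_I.2 ⟨hk, c, hc, h⟩, rfl⟩

theorem notNC {l : List V} {x0 : V} {k : ℕ} (hk : k < l.length)
    (hI : k ∉ Sys.I G l.length (fun i => l.getD i x0) (comp G l x0)) :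
    l.getD k x0 ∉ NC G (comp G l x0) := by
  rintro (h | ⟨c, hc, h⟩)
  · exact comp_not _ h (getD_mem x0 hk)
  · exact hI (Sys.mem_I.2 ⟨hk, c, hc, h⟩)

theorem step [Fintype V] (h5 : NoP5 G) {Q P : List V} (hQ : Longest G Q)
    (hP : Longest G P) {x0 : V} {i : ℕ}
    (hi : i ∈ Sys.I G Q.length (fun i => Q.getD i x0) (comp G Q x0))
    (h1 : (Sys.I G Q.length (fun i => Q.getD i x0) (comp G Q x0)).card + 1 ≤
      Sys.num G Q.length (fun i => Q.getD i x0) (Q.getD i x0))
    (h2 : ∀ j ∈ Sys.I G Q.length (fun i => Q.getD i x0) (comp G Q x0),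
      ¬ G.Adj (Q.getD i x0) (Q.getD j x0) →
        Sys.cell G Q.length (fun i => Q.getD i x0) (comp G Q x0) (j + 1) ∈
          Sys.tau G Q.length (fun i => Q.getD i x0) (comp G Q x0) (Q.getD i x0) ∧
        Sys.cell G Q.length (fun i => Q.getD i x0) (comp G Q x0) (j - 1) ∈
          Sys.tau G Q.length (fun i => Q.getD i x0) (comp G Q x0) (Q.getD i x0))
    (haP : Q.getD i x0 ∉ P) :
    nc G (comp G Q x0) < nc G (comp G P (Q.getD i x0)) ∨
      ∃ a x s t u w, DStar G a x s t u w := by
  have SQ := theSys hQ x0 (G := G)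
  have SP := theSys hP (Q.getD i x0) (G := G)
  obtain ⟨hiL, c0, hc0, hc0a⟩ := Sys.mem_I.1 hi
  generalize hC : comp G Q x0 = C at *
  have hCQ : ∀ c ∈ C, c ∉ Q := by rw [← hC]; exact comp_not
  have hCcl : ∀ c ∈ C, ∀ v, G.Adj c v → v ∉ Q → v ∈ C := by
    rw [← hC]
    intro c hc v h hv
    exact comp_closed hc h hv
  have hCconn : ∀ U : Set V, U ⊆ C → U.Nonempty →
      (∀ u ∈ U, ∀ v ∈ C, G.Adj u v → v ∈ U) → U = C := SQ.conn
  have hatt : ∀ v, v ∉ C → ∀ c ∈ C, G.Adj c v →
      ∃ j ∈ Sys.I G Q.length (fun i => Q.getD i x0) C, Q.getD j x0 = v := by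
    rw [← hC]
    intro v hv c hc h
    exact att hv hc h
  have hnotNC : ∀ k, k < Q.length → k ∉ Sys.I G Q.length (fun i => Q.getD i x0) C →
      Q.getD k x0 ∉ NC G C := by
    rw [← hC]
    intro k hk hI
    exact notNC hk hI
  set q : ℕ → V := fun i => Q.getD i x0 with hq
  set a : V := Q.getD i x0 with ha
  have hqi : q i = a := rfl
  set p : ℕ → V := fun k => P.getD k a with hp
  set C' := comp G P a with hC'
  have haC' : a ∈ C' := self_comp haP
  have hC'cl : ∀ c ∈ C', ∀ v, G.Adj c v → v ∉ P → v ∈ C' := fun c hc v h hv => comp_closed hc h hv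
  have hNa : ∀ v, G.Adj a v → v ∈ NC G C' := by
    intro v hv
    exact Or.inr ⟨a, haC', hv⟩
  have hisL := SQ.succ_lt hi
  have hisI := SQ.succ_not hi
  have haQ : a ∈ Q := getD_mem x0 hiL
  by_cases hcom : ∀ c ∈ C, G.Adj a c
  · -- `a` is complete to `C`
    left
    set A1 := univ.filter fun v => v ∈ C with hA1
    set A2 := ((range Q.length).filter fun k => G.Adj a (q k)).image q with hA2
    have hinj : Set.InjOn q (((range Q.length).filter fun k => G.Adj a (q k) : Finset ℕ) : Set ℕ) := by
      intro k hk k' hk' h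
      exact SQ.inj k (mem_range.1 (mem_filter.1 (mem_coe.1 hk)).1) k'
        (mem_range.1 (mem_filter.1 (mem_coe.1 hk')).1) h
    have e2 : A2.card = Sys.num G Q.length q a := by
      rw [hA2, card_image_of_injOn hinj]
      rfl
    have e3 : (insert a (A1 ∪ A2)).card = A1.card + A2.card + 1 := by
      rw [card_insert_of_notMem, card_union_of_disjoint]
      · rw [disjoint_left]
        intro v hv1 hv2
        rw [hA1, mem_filter] at hv1
        rw [hA2, mem_image] at hv2
        obtain ⟨k, hk, rfl⟩ := hv2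
        exact hCQ _ hv1.2 (getD_mem x0 (mem_range.1 (mem_filter.1 hk).1))
      · rw [mem_union, not_or]
        constructor
        · intro h
          exact hCQ a (mem_filter.1 h).2 haQ
        · intro h
          rw [hA2, mem_image] at h
          obtain ⟨k, hk, hk'⟩ := h
          have := (mem_filter.1 hk).2
          rw [hk'] at this
          exact G.loopless.irrefl _ this
    have e4 : (insert a (A1 ∪ A2)).card ≤ nc G C' := by
      refine card_le_card ?_
      intro v hv
      rw [mem_filter]
      refine ⟨mem_univ _, ?_⟩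
      rw [mem_insert, mem_union] at hv
      rcases hv with rfl | hv | hv
      · exact Or.inl haC'
      · exact hNa v (hcom v (mem_filter.1 hv).2)
      · rw [hA2, mem_image] at hv
        obtain ⟨k, hk, rfl⟩ := hv
        exact hNa _ (mem_filter.1 hk).2
    have e5 : nc G C ≤ A1.card + (Sys.I G Q.length q C).card := by
      have : (univ.filter fun v => v ∈ NC G C) ⊆ A1 ∪ (Sys.I G Q.length q C).image q := by
        intro v hv
        rw [mem_filter] at hv
        rw [mem_union]
        by_cases hvC : v ∈ C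
        · exact Or.inl (mem_filter.2 ⟨mem_univ _, hvC⟩)
        · right
          rcases hv.2 with h | ⟨c, hc, h⟩
          · exact absurd h hvC
          · obtain ⟨j, hj, rfl⟩ := hatt v hvC c hc h
            exact mem_image.2 ⟨j, hj, rfl⟩
      exact (card_le_card this).trans ((card_union_le _ _).trans
        (Nat.add_le_add_left card_image_le _))
    have h1' : (Sys.I G Q.length q C).card + 1 ≤ Sys.num G Q.length q a := h1
    omega
  · -- `a` is mixed on `C`
    obtain ⟨mu, hmu, mv, hmv, hmuv, hamu, hamv⟩ : ∃ u ∈ C, ∃ v ∈ C, G.Adj u v ∧ G.Adj a u ∧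
        ¬ G.Adj a v := by
      by_contra hcon
      push Not at hcon
      have := hCconn {c | c ∈ C ∧ G.Adj a c} (fun c h => h.1) ⟨c0, hc0, hc0a.symm⟩
        (fun u hu v hv huv => ⟨hv, hcon u hu.1 v hv huv hu.2⟩)
      refine hcom fun c hc => ?_
      have h3 : c ∈ {c | c ∈ C ∧ G.Adj a c} := by rw [this]; exact hc
      exact h3.2
    by_cases hmeet : ∀ c ∈ C, c ∉ P
    · -- the other path does not meet `C`
      left
      have hsub : C ⊆ C' := by
        have := hCconn (C ∩ C') Set.inter_subset_left
          ⟨c0, hc0, hC'cl a haC' c0 hc0a.symm (hmeet c0 hc0)⟩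
          (fun u hu v hv huv => ⟨hv, hC'cl u hu.2 v huv (hmeet v hv)⟩)
        rw [← this]
        exact Set.inter_subset_right
      refine card_lt_card ⟨?_, ?_⟩
      · intro v hv
        rw [mem_filter] at hv ⊢
        refine ⟨mem_univ _, ?_⟩
        rcases hv.2 with h | ⟨c, hc, h⟩
        · exact Or.inl (hsub h)
        · exact Or.inr ⟨c, hsub hc, h⟩
      · intro hcon
        have h3 : q (i + 1) ∈ univ.filter fun v => v ∈ NC G C' :=
          mem_filter.2 ⟨mem_univ _, hNa _ (SQ.adj i hisL)⟩
        exact hnotNC (i + 1) hisL hisI (mem_filter.1 (hcon h3)).2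
    · right
      push Not at hmeet
      have hclD : ∀ v v', v ∉ NC G C → v' ∉ NC G C → G.Adj a v → G.Adj v v' → G.Adj a v' := by
        intro v v' hv hv' hav hvv
        by_contra h
        exact h5 mv mu a v v' hmuv.symm hamu.symm hav hvv (fun h => hamv h.symm)
          (fun h => hv (Or.inr ⟨mv, hmv, h⟩)) (fun h => hv' (Or.inr ⟨mv, hmv, h⟩))
          (fun h => hv (Or.inr ⟨mu, hmu, h⟩)) (fun h => hv' (Or.inr ⟨mu, hmu, h⟩)) h
      have hB : ∀ j ∈ Sys.I G Q.length q C, ¬ G.Adj a (q j) →
          G.Adj a (q (j + 1)) ∧ G.Adj a (q (j - 1)) := by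
        intro j hj hn
        obtain ⟨e1, e2⟩ := h2 j hj hn
        have hjs := SQ.succ_lt hj
        have hjI := SQ.succ_not hj
        have hjp := SQ.pos hj
        have hjI' := SQ.pred_not hj
        exact ⟨SQ.whole h5 hmu hmv hmuv hamu hamv e1 hjs hjI (Sys.self_mem hjs hjI),
          SQ.whole h5 hmu hmv hmuv hamu hamv e2 (by omega) hjI' (Sys.self_mem (by omega) hjI')⟩
      -- 3a
      have hD : ∀ z ∈ P, G.Adj a z → z ∈ NC G C := by
        by_contra hcon
        push Not at hcon
        obtain ⟨z0, hz0P, hz0a, hz0N⟩ := hcon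
        set Z := (range P.length).filter fun k => G.Adj a (p k) ∧ p k ∉ NC G C with hZ
        have hmemZ : ∀ z ∈ P, G.Adj a z → z ∉ NC G C → ∃ k ∈ Z, p k = z := by
          intro z h3 h4 h6
          obtain ⟨k, hk, rfl⟩ := idx a h3
          exact ⟨k, by rw [hZ, mem_filter, mem_range]; exact ⟨hk, h4, h6⟩, rfl⟩
        obtain ⟨k0, hk0, -⟩ := hmemZ z0 hz0P hz0a hz0N
        have hZI : ∀ k ∈ Z, k ∈ Sys.I G P.length p C' := by
          intro k hk
          rw [hZ, mem_filter, mem_range] at hk
          exact Sys.mem_I.2 ⟨hk.1, a, haC', hk.2.1⟩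
        have hj : ∀ k, ∃ j, k ∈ Z → j ∈ Sys.I G Q.length q C ∧ q j = p (k + 1) := by
          intro k
          by_cases hk : k ∈ Z
          · have hkI := hZI k hk
            have hks := SP.succ_lt hkI
            have hksI := SP.succ_not hkI
            rw [hZ, mem_filter, mem_range] at hk
            have hadj : G.Adj (p k) (p (k + 1)) := SP.adj k hks
            have hna : ¬ G.Adj a (p (k + 1)) := SP.notC hks hksI haC'
            have hnC : p (k + 1) ∉ C := fun h => hk.2.2 (Or.inr ⟨_, h, hadj.symm⟩)
            by_cases hN : p (k + 1) ∈ NC G C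
            · rcases hN with h | ⟨c, hc, h⟩
              · exact absurd h hnC
              · obtain ⟨j, hj, hj'⟩ := hatt _ hnC c hc h
                exact ⟨j, fun _ => ⟨hj, hj'⟩⟩
            · exact absurd (hclD _ _ hk.2.2 hN hk.2.1 hadj) hna
          · exact ⟨0, fun h => absurd h hk⟩
        choose jj hjj using hj
        have hnb : ∀ k ∈ Z, q (jj k + 1) ∈ Z.image p ∧ q (jj k - 1) ∈ Z.image p := by
          intro k hk
          obtain ⟨e1, e2⟩ := hjj k hk
          have hkI := hZI k hk
          have hks := SP.succ_lt hkI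
          have hksI := SP.succ_not hkI
          have hna : ¬ G.Adj a (q (jj k)) := by
            rw [e2]
            exact SP.notC hks hksI haC'
          obtain ⟨b1, b2⟩ := hB _ e1 hna
          have hjs := SQ.succ_lt e1
          have hjp := SQ.pos e1
          have hjI := SQ.succ_not e1
          have hjI' := SQ.pred_not e1
          have hadj1 : G.Adj (q (jj k)) (q (jj k + 1)) := SQ.adj _ hjs
          have hadj2 : G.Adj (q (jj k - 1)) (q (jj k)) := by
            have := SQ.adj (jj k - 1) (by omega)
            rwa [show jj k - 1 + 1 = jj k by omega] at this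
          have key : ∀ z, G.Adj a z → G.Adj z (q (jj k)) → z ∉ NC G C → z ∈ Z.image p := by
            intro z hz1 hz2 hz3
            have hzP : z ∈ P := by
              by_contra hzP
              exact hksI (Sys.mem_I.2 ⟨hks, z, hC'cl a haC' z hz1 hzP, by rw [← e2]; exact hz2⟩)
            obtain ⟨k', hk', hk''⟩ := hmemZ z hzP hz1 hz3
            exact mem_image.2 ⟨k', hk', hk''⟩
          exact ⟨key _ b1 hadj1.symm (hnotNC _ hjs hjI),
            key _ b2 hadj2 (hnotNC _ (by omega) hjI')⟩
        set J := Z.image jj with hJ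
        have hcJ : J.card = Z.card := by
          refine card_image_of_injOn ?_
          intro k hk k' hk' h
          have e1 := (hjj k hk).2
          have e2 := (hjj k' hk').2
          have hks := SP.succ_lt (hZI k hk)
          have hks' := SP.succ_lt (hZI k' hk')
          rw [h, e2] at e1
          have := SP.inj _ hks' _ hks e1
          omega
        have hcW : (Z.image p).card = Z.card := by
          refine card_image_of_injOn ?_
          intro k hk k' hk' h
          exact SP.inj _ (Sys.mem_I.1 (hZI k hk)).1 _ (Sys.mem_I.1 (hZI k' hk')).1 h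
        have hJI : ∀ j ∈ J, j ∈ Sys.I G Q.length q C := by
          intro j hj
          obtain ⟨k, hk, rfl⟩ := mem_image.1 hj
          exact (hjj k hk).1
        have himg : J.image (fun j => q (j + 1)) = Z.image p := by
          refine eq_of_subset_of_card_le ?_ ?_
          · intro v hv
            obtain ⟨j, hj, rfl⟩ := mem_image.1 hv
            obtain ⟨k, hk, rfl⟩ := mem_image.1 hj
            exact (hnb k hk).1
          · have e : (J.image (fun j => q (j + 1))).card = J.card := by
              refine card_image_of_injOn ?_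
              intro j hj j' hj' h
              have := SQ.inj _ (SQ.succ_lt (hJI j hj)) _ (SQ.succ_lt (hJI j' hj')) h
              omega
            rw [e, hcJ, hcW]
        have hJne : J.Nonempty := ⟨jj k0, mem_image_of_mem _ hk0⟩
        have hj1 := min'_mem J hJne
        have h3 : q (J.min' hJne - 1) ∈ J.image (fun j => q (j + 1)) := by
          rw [himg]
          obtain ⟨k, hk, hk'⟩ := mem_image.1 hj1
          rw [← hk']
          exact (hnb k hk).2
        obtain ⟨j, hj, hj'⟩ := mem_image.1 h3
        have hjs := SQ.succ_lt (hJI j hj)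
        have h4 := SQ.pos (hJI _ hj1)
        have h6 := (Sys.mem_I.1 (hJI _ hj1)).1
        have h7 := SQ.inj _ hjs _ (by omega) hj'
        have h8 := min'_le J j hj
        omega
      -- 3b
      have hAP : ∀ j ∈ Sys.I G Q.length q C, ∀ k < P.length, p k = q j →
          k ∈ Sys.I G P.length p C' := by
        intro j hj k hk hkj
        by_cases haj : G.Adj a (q j)
        · exact Sys.mem_I.2 ⟨hk, a, haC', by rw [hkj]; exact haj⟩
        · obtain ⟨b1, -⟩ := hB j hj haj
          have hjs := SQ.succ_lt hj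
          have hjI := SQ.succ_not hj
          have hnP : q (j + 1) ∉ P := fun h => hnotNC _ hjs hjI (hD _ h b1)
          exact Sys.mem_I.2 ⟨hk, q (j + 1), hC'cl a haC' _ b1 hnP, by
            rw [hkj]; exact (SQ.adj j hjs).symm⟩
      have hAP' : ∀ k, k < P.length → p k ∉ C → ∀ c ∈ C, G.Adj c (p k) →
          k ∈ Sys.I G P.length p C' := by
        intro k hk hkC c hc h
        obtain ⟨j, hj, hj'⟩ := hatt _ hkC c hc h
        exact hAP j hj k hk hj'.symm
      -- 3c
      have hex : ∃ k, k < P.length ∧ p k ∈ C := by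
        obtain ⟨c, hc, hcP⟩ := hmeet
        obtain ⟨k, hk, hk'⟩ := idx a hcP
        exact ⟨k, hk, by rw [hp]; simp only; rw [hk']; exact hc⟩
      obtain ⟨k0, ⟨hk0, hk0C⟩, hmin⟩ : ∃ k, (k < P.length ∧ p k ∈ C) ∧
          ∀ k' < k, ¬ (k' < P.length ∧ p k' ∈ C) :=
        ⟨Nat.find hex, Nat.find_spec hex, fun k' hk' => Nat.find_min hex hk'⟩
      have hpre : k0 = 0 ∨ (1 ≤ k0 ∧ k0 - 1 ∈ Sys.I G P.length p C') := by
        rcases Nat.eq_zero_or_pos k0 with h | h
        · exact Or.inl h
        · right
          refine ⟨h, ?_⟩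
          have hnC : p (k0 - 1) ∉ C := fun h' => hmin (k0 - 1) (by omega) ⟨by omega, h'⟩
          have hadj : G.Adj (p k0) (p (k0 - 1)) := by
            have := SP.adj (k0 - 1) (by omega)
            rw [show k0 - 1 + 1 = k0 by omega] at this
            exact this.symm
          exact hAP' (k0 - 1) (by omega) hnC _ hk0C hadj
      have hk0I : k0 ∉ Sys.I G P.length p C' := by
        rcases hpre with h | ⟨h, h'⟩
        · intro h'
          obtain ⟨-, c, hc, h''⟩ := Sys.mem_I.1 h'
          rw [h] at h''
          exact SP.h0 c hc h''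
        · have := SP.succ_not h'
          rwa [show k0 - 1 + 1 = k0 by omega] at this
      obtain ⟨x, hx, hax, hxk⟩ : ∃ x ∈ C, G.Adj a x ∧ G.Adj x (p k0) := by
        rcases SQ.near h5 (a := a) (y := q (i + 1)) (SQ.adj i hisL).symm
          (fun c hc => SQ.notC' hisL hisI hc) ⟨c0, hc0, hc0a.symm⟩ (p k0) hk0C with h | h
        · exact absurd h (SP.notC hk0 hk0I haC')
        · exact h
      have hxP : x ∈ P := by
        by_contra h
        exact hk0I (Sys.mem_I.2 ⟨hk0, x, hC'cl a haC' x hax h, hxk⟩)
      obtain ⟨m, hm, hmx⟩ := idx a hxP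
      have hmx' : p m = x := hmx
      have hmI : m ∈ Sys.I G P.length p C' := Sys.mem_I.2 ⟨hm, a, haC', by rw [hmx']; exact hax⟩
      have hms := SP.succ_lt hmI
      have hmp := SP.pos hmI
      have hmsI := SP.succ_not hmI
      have hmpI := SP.pred_not hmI
      have hkm : k0 < m := by
        rcases lt_trichotomy k0 m with h | h | h
        · exact h
        · exact absurd (h ▸ hmI) hk0I
        · exact absurd ⟨hm, by rw [hmx']; exact hx⟩ (hmin m h)
      have hadju : G.Adj x (p (m - 1)) := by
        have := SP.adj (m - 1) (by omega)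
        rw [show m - 1 + 1 = m by omega, hmx'] at this
        exact this.symm
      have hadjw : G.Adj x (p (m + 1)) := by
        have := SP.adj m hms
        rwa [hmx'] at this
      have huC : p (m - 1) ∈ C := by
        by_contra h
        exact hmpI (hAP' _ (by omega) h x hx hadju)
      have hwC : p (m + 1) ∈ C := by
        by_contra h
        exact hmsI (hAP' _ hms h x hx hadjw)
      have huw : ¬ G.Adj (p (m - 1)) (p (m + 1)) := by
        refine ix3 hP (C := C') comp_not (comp_link a) a k0 m hkm hms haC' ?_ ?_ ?_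
        · rw [hmx]
          exact hax
        · rw [hmx]
          exact hxk
        · rcases hpre with h | ⟨h, h'⟩
          · exact Or.inl h
          · obtain ⟨-, c, hc, h''⟩ := Sys.mem_I.1 h'
            exact Or.inr ⟨h, c, hc, h''⟩
      obtain ⟨s, t, e1, e2, e3, e4, e5⟩ := SQ.mixed' h5 hi hmu hmv hmuv hamu hamv
      refine ⟨a, x, s, t, p (m - 1), p (m + 1), hax, e1, e2, hadju, hadjw, e3, ?_, e4, huw,
        (e5 x hx).1, (e5 x hx).2, SP.notC (by omega) hmpI haC', SP.notC hms hmsI haC',
        (e5 _ huC).1, (e5 _ hwC).1, (e5 _ huC).2, (e5 _ hwC).2⟩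
      intro h
      have := SP.inj _ (by omega) _ hms h
      omega

end Pool.Agent.K7.H44.LP
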