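import Pool.Agent.K7.H44.LP.Phi

/-!
# Comparison of two longest paths, second form
-/

set_option autoImplicit false

namespace Pool.Agent.K7.H44.LP

open Finset Classical

variable {V : Type*} {G : SimpleGraph V}

/-- `a`, `b`, `d` independent, all adjacent to `c`, `c'`, `q`; `c` adjacent to `c'`, and `g` to `q` -/
def Kite (G : SimpleGraph V) (a b d c c' q g : V) : Prop :=
  (a ≠ b ∧ a ≠ d ∧ b ≠ d) ∧ (¬ G.Adj a b ∧ ¬ G.Adj a d ∧ ¬ G.Adj b d) ∧
  (G.Adj a c ∧ G.Adj a c' ∧ G.Adj a q) ∧ (G.Adj b c ∧ G.Adj b c' ∧ G.Adj b q) ∧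
  (G.Adj d c ∧ G.Adj d c' ∧ G.Adj d q) ∧ G.Adj c c' ∧ G.Adj q g ∧
  (¬ G.Adj c q ∧ ¬ G.Adj c' q) ∧
  (¬ G.Adj a g ∧ ¬ G.Adj b g ∧ ¬ G.Adj d g ∧ ¬ G.Adj c g ∧ ¬ G.Adj c' g)

theorem step2 [Fintype V] (h5 : NoP5 G) {Q P : List V} (hQ : Longest G Q)
    (hP : Longest G P) {x0 : V} {i : ℕ}
    (hi : i ∈ Sys.I G Q.length (fun i => Q.getD i x0) (comp G Q x0))
    (h1 : (Sys.I G Q.length (fun i => Q.getD i x0) (comp G Q x0)).card + 1 ≤
      Sys.num G Q.length (fun i => Q.getD i x0) (Q.getD i x0))
    (h2 : ∀ j ∈ Sys.I G Q.length (fun i => Q.getD i x0) (comp G Q x0),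
      ¬ G.Adj (Q.getD i x0) (Q.getD j x0) →
        Sys.cell G Q.length (fun i => Q.getD i x0) (comp G Q x0) (j + 1) ∈
          Sys.tau G Q.length (fun i => Q.getD i x0) (comp G Q x0) (Q.getD i x0) ∧
        Sys.cell G Q.length (fun i => Q.getD i x0) (comp G Q x0) (j - 1) ∈
          Sys.tau G Q.length (fun i => Q.getD i x0) (comp G Q x0) (Q.getD i x0))
    (h3 : Sys.cell G Q.length (fun i => Q.getD i x0) (comp G Q x0) 0 ∈
      Sys.tau G Q.length (fun i => Q.getD i x0) (comp G Q x0) (Q.getD i x0))
    (haP : Q.getD i x0 ∉ P) :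
    ((∀ n, phi G (comp G Q x0) n → phi G (comp G P (Q.getD i x0)) n) ∧
      nc G (comp G Q x0) < nc G (comp G P (Q.getD i x0))) ∨
    (∃ m, (∀ n, phi G (comp G Q x0) n → n ≤ m) ∧ phi G (comp G P (Q.getD i x0)) (m + 1) ∧
      m + 1 ≤ Fintype.card V) ∨
    ∃ a b d c c' q g, Kite G a b d c c' q g := by
  have hlen := fun (n j : ℕ) hj => phi_len hQ (x0 := x0) (j := j) (n := n) hj
  have SQ := theSys hQ x0 (G := G)
  have SP := theSys hP (Q.getD i x0) (G := G)
  obtain ⟨hiL, c0, hc0, hc0a⟩ := Sys.mem_I.1 hi
  generalize hC : comp G Q x0 = C at *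
  have hCQ : ∀ c ∈ C, c ∉ Q := by rw [← hC]; exact comp_not
  have hCcl : ∀ c ∈ C, ∀ v, G.Adj c v → v ∉ Q → v ∈ C := by
    rw [← hC]
    intro c hc v h hv
    exact comp_closed hc h hv
  have hCconn : ∀ U : Set V, U ⊆ C → U.Nonempty →
      (∀ u ∈ U, ∀ v ∈ C, G.Adj u v → v ∈ U) → U = C := SQ.conn
  have hatt : ∀ v, v ∉ C → ∀ c ∈ C, G.Adj c v →
      ∃ j ∈ Sys.I G Q.length (fun i => Q.getD i x0) C, Q.getD j x0 = v := by
    rw [← hC]
    intro v hv c hc h
    exact att hv hc h
  have hnotNC : ∀ k, k < Q.length → k ∉ Sys.I G Q.length (fun i => Q.getD i x0) C →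
      Q.getD k x0 ∉ NC G C := by
    rw [← hC]
    intro k hk hI
    exact notNC hk hI
  set q : ℕ → V := fun i => Q.getD i x0 with hq
  set a : V := Q.getD i x0 with ha
  have hqi : q i = a := rfl
  set p : ℕ → V := fun k => P.getD k a with hp
  set C' := comp G P a with hC'
  have haC' : a ∈ C' := self_comp haP
  have hC'cl : ∀ c ∈ C', ∀ v, G.Adj c v → v ∉ P → v ∈ C' := fun c hc v h hv => comp_closed hc h hv
  have hNa : ∀ v, G.Adj a v → v ∈ NC G C' := by
    intro v hv
    exact Or.inr ⟨a, haC', hv⟩
  have hisL := SQ.succ_lt hi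
  have hisI := SQ.succ_not hi
  have haQ : a ∈ Q := getD_mem x0 hiL
  have hsubOf : (∀ c ∈ C, c ∉ P) → C ⊆ C' := by
    intro hmeet
    have := hCconn (C ∩ C') Set.inter_subset_left
      ⟨c0, hc0, hC'cl a haC' c0 hc0a.symm (hmeet c0 hc0)⟩
      (fun u hu v hv huv => ⟨hv, hC'cl u hu.2 v huv (hmeet v hv)⟩)
    rw [← this]
    exact Set.inter_subset_right
  by_cases hcom : ∀ c ∈ C, G.Adj a c
  · -- `a` is complete to `C`
    have hnc : nc G C < nc G C' := by
      set A1 := univ.filter fun v => v ∈ C with hA1
      set A2 := ((range Q.length).filter fun k => G.Adj a (q k)).image q with hA2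
      have hinj : Set.InjOn q (((range Q.length).filter fun k => G.Adj a (q k) : Finset ℕ) : Set ℕ) := by
        intro k hk k' hk' h
        exact SQ.inj k (mem_range.1 (mem_filter.1 (mem_coe.1 hk)).1) k'
          (mem_range.1 (mem_filter.1 (mem_coe.1 hk')).1) h
      have e2 : A2.card = Sys.num G Q.length q a := by
        rw [hA2, card_image_of_injOn hinj]
        rfl
      have e3 : (insert a (A1 ∪ A2)).card = A1.card + A2.card + 1 := by
        rw [card_insert_of_notMem, card_union_of_disjoint]
        · rw [disjoint_left]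
          intro v hv1 hv2
          rw [hA1, mem_filter] at hv1
          rw [hA2, mem_image] at hv2
          obtain ⟨k, hk, rfl⟩ := hv2
          exact hCQ _ hv1.2 (getD_mem x0 (mem_range.1 (mem_filter.1 hk).1))
        · rw [mem_union, not_or]
          constructor
          · intro h
            exact hCQ a (mem_filter.1 h).2 haQ
          · intro h
            rw [hA2, mem_image] at h
            obtain ⟨k, hk, hk'⟩ := h
            have := (mem_filter.1 hk).2
            rw [hk'] at this
            exact G.loopless.irrefl _ this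
      have e4 : (insert a (A1 ∪ A2)).card ≤ nc G C' := by
        refine card_le_card ?_
        intro v hv
        rw [mem_filter]
        refine ⟨mem_univ _, ?_⟩
        rw [mem_insert, mem_union] at hv
        rcases hv with rfl | hv | hv
        · exact Or.inl haC'
        · exact hNa v (hcom v (mem_filter.1 hv).2)
        · rw [hA2, mem_image] at hv
          obtain ⟨k, hk, rfl⟩ := hv
          exact hNa _ (mem_filter.1 hk).2
      have e5 : nc G C ≤ A1.card + (Sys.I G Q.length q C).card := by
        have : (univ.filter fun v => v ∈ NC G C) ⊆ A1 ∪ (Sys.I G Q.length q C).image q := by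
          intro v hv
          rw [mem_filter] at hv
          rw [mem_union]
          by_cases hvC : v ∈ C
          · exact Or.inl (mem_filter.2 ⟨mem_univ _, hvC⟩)
          · right
            rcases hv.2 with h | ⟨c, hc, h⟩
            · exact absurd h hvC
            · obtain ⟨j, hj, rfl⟩ := hatt v hvC c hc h
              exact mem_image.2 ⟨j, hj, rfl⟩
        exact (card_le_card this).trans ((card_union_le _ _).trans
          (Nat.add_le_add_left card_image_le _))
      have h1' : (Sys.I G Q.length q C).card + 1 ≤ Sys.num G Q.length q a := h1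
      omega
    by_cases hmeet : ∀ c ∈ C, c ∉ P
    · exact Or.inl ⟨fun n h => phi_sub (hsubOf hmeet) (comp_link a) hc0 h, hnc⟩
    push Not at hmeet
    by_cases hedge : ∃ u ∈ C, ∃ v ∈ C, G.Adj u v
    swap
    · left
      refine ⟨fun n h => phi_one ?_, hnc⟩
      obtain ⟨R, r1, r2, r3, r4, r5⟩ := h a (fun h => hCQ a h haQ) c0 hc0 hc0a
      by_contra hn
      match R, r1, r3, r4 with
      | [], _, _, r4 => simp at r4; omega
      | [_], _, _, r4 => simp at r4; omega
      | x :: y :: R, r1, r3, _ =>
        rw [List.isChain_cons_cons] at r1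
        exact hedge ⟨x, r3 x (by simp), y, r3 y (by simp), r1.1⟩
    right
    right
    by_contra hK
    push Not at hK
    obtain ⟨c1, hc1, c2, hc2, h12⟩ := hedge
    have hYY : ∀ k ∈ Sys.I G P.length p C', ∀ k' ∈ Sys.I G P.length p C',
        ¬ G.Adj (p (k + 1)) (p (k' + 1)) := by
      intro k hk k' hk' h
      obtain ⟨-, c, hc, hck⟩ := Sys.mem_I.1 hk
      obtain ⟨-, c', hc', hck'⟩ := Sys.mem_I.1 hk'
      rcases lt_trichotomy k k' with h' | h' | h'
      · exact SP.h2 k k' h' (SP.succ_lt hk') c hc c' hc' hck hck' h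
      · rw [h'] at h
        exact G.loopless.irrefl _ h
      · exact SP.h2 k' k h' (SP.succ_lt hk) c' hc' c hc hck' hck h.symm
    have hcl : ∀ j ∈ Sys.I G Q.length q C, (∃ k ∈ Sys.I G P.length p C', p (k + 1) = q j) →
        ∀ z, z < Q.length → z ∉ Sys.I G Q.length q C → G.Adj (q j) (q z) →
        Sys.cell G Q.length q C z ∈ Sys.tau G Q.length q C a →
        ∃ k ∈ Sys.I G P.length p C', (∃ m ∈ Sys.cell G Q.length q C z, p k = q m) ∧
          ∃ j' ∈ Sys.I G Q.length q C, p (k + 1) = q j' := by
      rintro j hj ⟨k0, hk0, hk0j⟩ z hz hzI hbz hT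
      obtain ⟨-, c, hc, hcb⟩ := Sys.mem_I.1 hj
      generalize hb : q j = b at hk0j hbz hcb
      have hk0s := SP.succ_lt hk0
      have hk0I := SP.succ_not hk0
      have hbC' : ∀ c ∈ C', ¬ G.Adj c b := by
        intro c hc h
        rw [← hk0j] at h
        exact SP.notC hk0s hk0I hc h
      have hab : ¬ G.Adj a b := hbC' a haC'
      have hbP : b ∈ P := by rw [← hk0j]; exact getD_mem a hk0s
      have hane : a ≠ b := fun h => haP (h ▸ hbP)
      have hY : ∀ k ∈ Sys.I G P.length p C', ¬ G.Adj (p (k + 1)) b := by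
        intro k hk h
        obtain ⟨-, c, hc, hck⟩ := Sys.mem_I.1 hk
        obtain ⟨-, c', hc', hck'⟩ := Sys.mem_I.1 hk0
        rcases lt_trichotomy k k0 with h' | h' | h'
        · exact SP.h2 k k0 h' hk0s c hc c' hc' hck hck' (by rw [hk0j]; exact h)
        · rw [h', hk0j] at h
          exact G.loopless.irrefl _ h
        · exact SP.h2 k0 k h' (SP.succ_lt hk) c' hc' c hc hck' hck (by rw [hk0j]; exact h.symm)
      have hcN : ∀ m ∈ Sys.cell G Q.length q C z, ∀ c ∈ C, ¬ G.Adj c (q m) := by
        intro m hm c hc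
        exact SQ.notC (Sys.mem_cell.1 hm).1 (Sys.not_I_of_cell hm) hc
      have hnext : ∀ k ∈ Sys.I G P.length p C', ∀ m ∈ Sys.cell G Q.length q C z, p k = q m →
          (∃ j' ∈ Sys.I G Q.length q C, p (k + 1) = q j') ∨
            (G.Adj (q m) (p (k + 1)) ∧ ¬ G.Adj a (p (k + 1)) ∧ ¬ G.Adj b (p (k + 1)) ∧
              ∀ c ∈ C, ¬ G.Adj c (p (k + 1))) := by
        intro k hk m hm hkm
        have hks := SP.succ_lt hk
        have hksI := SP.succ_not hk
        by_cases hA : ∃ j' ∈ Sys.I G Q.length q C, p (k + 1) = q j'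
        · exact Or.inl hA
        · right
          have hadj : G.Adj (q m) (p (k + 1)) := by
            rw [← hkm]; exact SP.adj k hks
          refine ⟨hadj, SP.notC hks hksI haC', fun h => hY k hk h.symm, ?_⟩
          intro c hc h
          have hnC : p (k + 1) ∉ C := fun h' => hcN m hm _ h' hadj.symm
          obtain ⟨j', hj', hj''⟩ := hatt _ hnC c hc h
          exact hA ⟨j', hj', hj''.symm⟩
      have hL1 : ∀ k ∈ Sys.I G P.length p C', ∀ m ∈ Sys.cell G Q.length q C z, p k = q m →
          G.Adj b (q m) → ∃ j' ∈ Sys.I G Q.length q C, p (k + 1) = q j' := by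
        intro k hk m hm hkm hbm
        rcases hnext k hk m hm hkm with h | ⟨g1, g2, g3, g4⟩
        · exact h
        · exfalso
          have hmN := hcN m hm
          by_cases hbcom : ∀ c ∈ C, G.Adj b c
          · by_cases ham : G.Adj a (q m)
            · have hx : ∀ x ∈ C, ∀ y ∈ C, G.Adj x y → ∀ k' < P.length, p k' = x →
                  p (k' + 1) ≠ b → False := by
                intro x hx y hy hxy k' hk' hk'x hne
                have hk'I : k' ∈ Sys.I G P.length p C' :=
                  Sys.mem_I.2 ⟨hk', a, haC', by rw [hk'x]; exact hcom x hx⟩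
                have hk's := SP.succ_lt hk'I
                have b1 : G.Adj x (p (k' + 1)) := by
                  rw [← hk'x]
                  exact SP.adj k' hk's
                have b2 : ¬ G.Adj a (p (k' + 1)) := SP.notC hk's (SP.succ_not hk'I) haC'
                have b3 : ¬ G.Adj b (p (k' + 1)) := fun h => hY k' hk'I h.symm
                have b4 : ¬ G.Adj (p (k + 1)) (p (k' + 1)) := hYY k hk k' hk'I
                have b5 : G.Adj (q m) (p (k' + 1)) := by
                  by_contra h
                  exact h5 (p (k + 1)) (q m) a x (p (k' + 1)) g1.symm ham.symm (hcom x hx) b1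
                    (fun h => g2 h.symm) (fun h => g4 x hx h.symm) b4
                    (fun h => hmN x hx h.symm) h b2
                have b6 : G.Adj y (p (k' + 1)) := by
                  by_contra h
                  exact h5 y x (p (k' + 1)) (q m) (p (k + 1)) hxy.symm b1 b5.symm g1 h
                    (hmN y hy) (g4 y hy) (hmN x hx) (g4 x hx) (fun h => b4 h.symm)
                have b7 : a ≠ p (k' + 1) := fun h => haP (h ▸ getD_mem a hk's)
                exact hK a b (p (k' + 1)) x y (q m) (p (k + 1))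
                  ⟨⟨hane, b7, fun h => hne h.symm⟩, ⟨hab, b2, b3⟩,
                    ⟨hcom x hx, hcom y hy, ham⟩, ⟨hbcom x hx, hbcom y hy, hbm⟩,
                    ⟨b1.symm, b6.symm, b5.symm⟩, hxy, g1, ⟨hmN x hx, hmN y hy⟩,
                    ⟨g2, g3, fun h => b4 h.symm, g4 x hx, g4 y hy⟩⟩
              have hPall : ∀ x ∈ C, x ∈ P := by
                intro x hx
                by_contra hxP
                exact hbC' x (hC'cl a haC' x (hcom x hx) hxP) (hbcom x hx).symm
              obtain ⟨k1, hk1, e1⟩ := idx a (hPall c1 hc1)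
              obtain ⟨k2, hk2, e2⟩ := idx a (hPall c2 hc2)
              have e1' : p k1 = c1 := e1
              have e2' : p k2 = c2 := e2
              by_cases hne : p (k1 + 1) = b
              · refine hx c2 hc2 c1 hc1 h12.symm k2 hk2 e2' ?_
                intro h
                have hk1I : k1 ∈ Sys.I G P.length p C' :=
                  Sys.mem_I.2 ⟨hk1, a, haC', by rw [e1']; exact hcom c1 hc1⟩
                have hk2I : k2 ∈ Sys.I G P.length p C' :=
                  Sys.mem_I.2 ⟨hk2, a, haC', by rw [e2']; exact hcom c2 hc2⟩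
                have h' := SP.inj _ (SP.succ_lt hk1I) _ (SP.succ_lt hk2I) (hne.trans h.symm)
                have h'' : k1 = k2 := by omega
                rw [h'', e2'] at e1'
                exact h12.ne e1'.symm
              · exact hx c1 hc1 c2 hc2 h12 k1 hk1 e1' hne
            · exact h5 (p (k + 1)) (q m) b c1 a g1.symm hbm.symm (hbcom c1 hc1) (hcom c1 hc1).symm
                (fun h => g3 h.symm) (fun h => g4 c1 hc1 h.symm) (fun h => g2 h.symm)
                (fun h => hmN c1 hc1 h.symm) (fun h => ham h.symm) (fun h => hab h.symm)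
          · obtain ⟨u, hu, v, hv, huv, hbu, hbv⟩ : ∃ u ∈ C, ∃ v ∈ C, G.Adj u v ∧ G.Adj b u ∧
                ¬ G.Adj b v := by
              by_contra hcon
              push Not at hcon
              have := hCconn {c | c ∈ C ∧ G.Adj b c} (fun c h => h.1) ⟨c, hc, hcb.symm⟩
                (fun u hu v hv huv => ⟨hv, hcon u hu.1 v hv huv hu.2⟩)
              refine hbcom fun c hc => ?_
              have h3 : c ∈ {c | c ∈ C ∧ G.Adj b c} := by rw [this]; exact hc
              exact h3.2
            exact h5 v u b (q m) (p (k + 1)) huv.symm hbu.symm hbm g1 (fun h => hbv h.symm)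
              (hmN v hv) (g4 v hv) (hmN u hu) (g4 u hu) g3
      have hL2 : ∀ k ∈ Sys.I G P.length p C', ∀ m ∈ Sys.cell G Q.length q C z, p k = q m →
          G.Adj a (q m) → ¬ G.Adj b (q m) → ∃ j' ∈ Sys.I G Q.length q C, p (k + 1) = q j' := by
        intro k hk m hm hkm ham hbm
        rcases hnext k hk m hm hkm with h | ⟨g1, g2, g3, g4⟩
        · exact h
        · exfalso
          exact h5 (p (k + 1)) (q m) a c b g1.symm ham.symm (hcom c hc) hcb
            (fun h => g2 h.symm) (fun h => g4 c hc h.symm) (fun h => g3 h.symm)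
            (fun h => hcN m hm c hc h.symm) (fun h => hbm h.symm) hab
      obtain ⟨v, hv, hvI, hav, he⟩ := Sys.mem_tau.1 hT
      have hvc : v ∈ Sys.cell G Q.length q C z := by rw [← he]; exact Sys.self_mem hv hvI
      have hzc := Sys.self_mem (G := G) (p := q) (C := C) hz hzI
      by_cases hvP : q v ∈ P
      · obtain ⟨k, hk, hk'⟩ := idx a hvP
        have hk'' : p k = q v := hk'
        have hkI : k ∈ Sys.I G P.length p C' := Sys.mem_I.2 ⟨hk, a, haC', by rw [hk'']; exact hav⟩
        by_cases hbv : G.Adj b (q v)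
        · exact ⟨k, hkI, ⟨v, hvc, hk''⟩, hL1 k hkI v hvc hk'' hbv⟩
        · exact ⟨k, hkI, ⟨v, hvc, hk''⟩, hL2 k hkI v hvc hk'' hav hbv⟩
      · have hvC' : q v ∈ C' := hC'cl a haC' _ hav hvP
        obtain ⟨d, hd, hdz⟩ : ∃ d ∈ C', G.Adj d (q z) := by
          by_cases haz : G.Adj a (q z)
          · exact ⟨a, haC', haz⟩
          · refine ⟨q v, hvC', ?_⟩
            by_contra hvz
            exact h5 (q v) a c b (q z) hav.symm (hcom c hc) hcb hbz
              (fun h => hcN v hvc c hc h.symm) (hbC' _ hvC') hvz hab haz (hcN z hzc c hc)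
        have hzP : q z ∈ P := by
          by_contra hzP
          exact hbC' _ (hC'cl d hd _ hdz hzP) hbz.symm
        obtain ⟨k, hk, hk'⟩ := idx a hzP
        have hk'' : p k = q z := hk'
        have hkI : k ∈ Sys.I G P.length p C' := Sys.mem_I.2 ⟨hk, d, hd, by rw [hk'']; exact hdz⟩
        exact ⟨k, hkI, ⟨z, hzc, hk''⟩, hL1 k hkI z hzc hk'' hbz⟩
    set K := (Sys.I G P.length p C').filter fun k => ∃ j' ∈ Sys.I G Q.length q C,
      p (k + 1) = q j' with hKdef
    set J := (Sys.I G Q.length q C).filter fun j => ∃ k ∈ Sys.I G P.length p C',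
      p (k + 1) = q j with hJdef
    have hKJ : K.card ≤ J.card := by
      have e1 : (K.image fun k => p (k + 1)).card = K.card := by
        refine card_image_of_injOn ?_
        intro k hk k' hk' h
        have := SP.inj _ (SP.succ_lt (mem_filter.1 (mem_coe.1 hk)).1) _
          (SP.succ_lt (mem_filter.1 (mem_coe.1 hk')).1) h
        omega
      have e2 : (K.image fun k => p (k + 1)) ⊆ J.image q := by
        intro v hv
        obtain ⟨k, hk, rfl⟩ := mem_image.1 hv
        obtain ⟨hk1, j', hj', h⟩ := mem_filter.1 hk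
        exact mem_image.2 ⟨j', mem_filter.2 ⟨hj', k, hk1, h⟩, h.symm⟩
      rw [← e1]
      exact (card_le_card e2).trans card_image_le
    have hmm : ∀ k, ∃ m, (∃ m' < Q.length, p k = q m') → m < Q.length ∧ p k = q m := by
      intro k
      by_cases h : ∃ m' < Q.length, p k = q m'
      · obtain ⟨m, h1, h2⟩ := h
        exact ⟨m, fun _ => ⟨h1, h2⟩⟩
      · exact ⟨0, fun h' => absurd h' h⟩
    choose mm hmm using hmm
    have hcell : ∀ j ∈ J, ∀ z, z < Q.length → z ∉ Sys.I G Q.length q C → G.Adj (q j) (q z) →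
        Sys.cell G Q.length q C z ∈ Sys.tau G Q.length q C a →
        Sys.cell G Q.length q C z ∈ K.image (fun k => Sys.cell G Q.length q C (mm k)) := by
      intro j hj z hz hzI hjz hT
      obtain ⟨hj1, hj2⟩ := mem_filter.1 hj
      obtain ⟨k, hk, ⟨m, hm, hkm⟩, hj'⟩ := hcl j hj1 hj2 z hz hzI hjz hT
      refine mem_image.2 ⟨k, mem_filter.2 ⟨hk, hj'⟩, ?_⟩
      obtain ⟨e1, e2⟩ := hmm k ⟨m, (Sys.mem_cell.1 hm).1, hkm⟩
      have : mm k = m := SQ.inj _ e1 _ (Sys.mem_cell.1 hm).1 (e2.symm.trans hkm)
      rw [this]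
      exact Sys.cell_eq hz hm
    have hboth : ∀ j ∈ J,
        Sys.cell G Q.length q C (j + 1) ∈ K.image (fun k => Sys.cell G Q.length q C (mm k)) ∧
        Sys.cell G Q.length q C (j - 1) ∈ K.image (fun k => Sys.cell G Q.length q C (mm k)) := by
      intro j hj
      obtain ⟨hj1, k, hk, hkj⟩ := mem_filter.1 hj
      have hna : ¬ G.Adj a (q j) := by
        rw [← hkj]
        exact SP.notC (SP.succ_lt hk) (SP.succ_not hk) haC'
      obtain ⟨e1, e2⟩ := h2 j hj1 hna
      have hjs := SQ.succ_lt hj1
      have hjI := SQ.succ_not hj1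
      have hjp := SQ.pos hj1
      have hjI' := SQ.pred_not hj1
      have hadj2 : G.Adj (q j) (q (j - 1)) := by
        have := SQ.adj (j - 1) (by omega)
        rw [show j - 1 + 1 = j by omega] at this
        exact this.symm
      exact ⟨hcell j hj (j + 1) hjs hjI (SQ.adj j hjs) e1,
        hcell j hj (j - 1) (by omega) hjI' hadj2 e2⟩
    have hJne : J.Nonempty := by
      obtain ⟨c, hc, hcP⟩ := hmeet
      obtain ⟨k, hk, hk'⟩ := idx a hcP
      have hk'' : p k = c := hk'
      have hkI : k ∈ Sys.I G P.length p C' :=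
        Sys.mem_I.2 ⟨hk, a, haC', by rw [hk'']; exact hcom c hc⟩
      have hks := SP.succ_lt hkI
      have hksI := SP.succ_not hkI
      have hnC : p (k + 1) ∉ C := fun h => SP.notC hks hksI haC' (hcom _ h)
      have hadj : G.Adj c (p (k + 1)) := by
        have := SP.adj k hks
        rwa [hk''] at this
      obtain ⟨j, hj, hj'⟩ := hatt _ hnC c hc hadj
      exact ⟨j, mem_filter.2 ⟨hj, k, hkI, hj'.symm⟩⟩
    set j1 := J.min' hJne with hj1
    have hj1J : j1 ∈ J := min'_mem _ hJne
    have hj1I : j1 ∈ Sys.I G Q.length q C := (mem_filter.1 hj1J).1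
    have hinj : Set.InjOn (fun j => Sys.cell G Q.length q C (j + 1)) (J : Set ℕ) := by
      intro j hj j' hj' h
      simp only at h
      have hjI := (mem_filter.1 (mem_coe.1 hj)).1
      have hjI' := (mem_filter.1 (mem_coe.1 hj')).1
      have h1 : j + 1 ∈ Sys.cell G Q.length q C (j' + 1) :=
        h ▸ Sys.self_mem (SQ.succ_lt hjI) (SQ.succ_not hjI)
      have h2 := (Sys.mem_cell.1 h1).2
      have h3 := h2 j hjI
      have h4 := h2 j' hjI'
      omega
    have hnot : Sys.cell G Q.length q C (j1 - 1) ∉
        J.image fun j => Sys.cell G Q.length q C (j + 1) := by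
      intro h
      obtain ⟨j, hj, h'⟩ := mem_image.1 h
      have hjI := (mem_filter.1 hj).1
      have hle : j1 ≤ j := min'_le _ _ hj
      have h1 : j + 1 ∈ Sys.cell G Q.length q C (j1 - 1) :=
        h' ▸ Sys.self_mem (SQ.succ_lt hjI) (SQ.succ_not hjI)
      have h2 := (Sys.mem_cell.1 h1).2 j1 hj1I
      omega
    have hcard : J.card + 1 ≤ (K.image (fun k => Sys.cell G Q.length q C (mm k))).card := by
      rw [← card_image_of_injOn hinj, ← card_insert_of_notMem hnot]
      refine card_le_card ?_
      intro T hT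
      rcases mem_insert.1 hT with rfl | hT
      · exact (hboth j1 hj1J).2
      · obtain ⟨j, hj, rfl⟩ := mem_image.1 hT
        exact (hboth j hj).1
    have hle : (K.image (fun k => Sys.cell G Q.length q C (mm k))).card ≤ K.card := card_image_le
    omega
  · -- `a` is mixed on `C`
    obtain ⟨mu, hmu, mv, hmv, hmuv, hamu, hamv⟩ : ∃ u ∈ C, ∃ v ∈ C, G.Adj u v ∧ G.Adj a u ∧
        ¬ G.Adj a v := by
      by_contra hcon
      push Not at hcon
      have := hCconn {c | c ∈ C ∧ G.Adj a c} (fun c h => h.1) ⟨c0, hc0, hc0a.symm⟩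
        (fun u hu v hv huv => ⟨hv, hcon u hu.1 v hv huv hu.2⟩)
      refine hcom fun c hc => ?_
      have h3 : c ∈ {c | c ∈ C ∧ G.Adj a c} := by rw [this]; exact hc
      exact h3.2
    by_cases hmeet : ∀ c ∈ C, c ∉ P
    · -- the other path does not meet `C`
      left
      have hsub := hsubOf hmeet
      refine ⟨fun n h => phi_sub hsub (comp_link a) hc0 h, card_lt_card ⟨?_, ?_⟩⟩
      · intro v hv
        rw [mem_filter] at hv ⊢
        refine ⟨mem_univ _, ?_⟩
        rcases hv.2 with h | ⟨c, hc, h⟩
        · exact Or.inl (hsub h)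
        · exact Or.inr ⟨c, hsub hc, h⟩
      · intro hcon
        have h3 : q (i + 1) ∈ univ.filter fun v => v ∈ NC G C' :=
          mem_filter.2 ⟨mem_univ _, hNa _ (SQ.adj i hisL)⟩
        exact hnotNC (i + 1) hisL hisI (mem_filter.1 (hcon h3)).2
    · right
      left
      push Not at hmeet
      have hclD : ∀ v v', v ∉ NC G C → v' ∉ NC G C → G.Adj a v → G.Adj v v' → G.Adj a v' := by
        intro v v' hv hv' hav hvv
        by_contra h
        exact h5 mv mu a v v' hmuv.symm hamu.symm hav hvv (fun h => hamv h.symm)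
          (fun h => hv (Or.inr ⟨mv, hmv, h⟩)) (fun h => hv' (Or.inr ⟨mv, hmv, h⟩))
          (fun h => hv (Or.inr ⟨mu, hmu, h⟩)) (fun h => hv' (Or.inr ⟨mu, hmu, h⟩)) h
      have hB : ∀ j ∈ Sys.I G Q.length q C, ¬ G.Adj a (q j) →
          G.Adj a (q (j + 1)) ∧ G.Adj a (q (j - 1)) := by
        intro j hj hn
        obtain ⟨e1, e2⟩ := h2 j hj hn
        have hjs := SQ.succ_lt hj
        have hjI := SQ.succ_not hj
        have hjp := SQ.pos hj
        have hjI' := SQ.pred_not hj
        exact ⟨SQ.whole h5 hmu hmv hmuv hamu hamv e1 hjs hjI (Sys.self_mem hjs hjI),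
          SQ.whole h5 hmu hmv hmuv hamu hamv e2 (by omega) hjI' (Sys.self_mem (by omega) hjI')⟩
      -- 3a
      have hD : ∀ z ∈ P, G.Adj a z → z ∈ NC G C := by
        by_contra hcon
        push Not at hcon
        obtain ⟨z0, hz0P, hz0a, hz0N⟩ := hcon
        set Z := (range P.length).filter fun k => G.Adj a (p k) ∧ p k ∉ NC G C with hZ
        have hmemZ : ∀ z ∈ P, G.Adj a z → z ∉ NC G C → ∃ k ∈ Z, p k = z := by
          intro z h3 h4 h6
          obtain ⟨k, hk, rfl⟩ := idx a h3
          exact ⟨k, by rw [hZ, mem_filter, mem_range]; exact ⟨hk, h4, h6⟩, rfl⟩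
        obtain ⟨k0, hk0, -⟩ := hmemZ z0 hz0P hz0a hz0N
        have hZI : ∀ k ∈ Z, k ∈ Sys.I G P.length p C' := by
          intro k hk
          rw [hZ, mem_filter, mem_range] at hk
          exact Sys.mem_I.2 ⟨hk.1, a, haC', hk.2.1⟩
        have hj : ∀ k, ∃ j, k ∈ Z → j ∈ Sys.I G Q.length q C ∧ q j = p (k + 1) := by
          intro k
          by_cases hk : k ∈ Z
          · have hkI := hZI k hk
            have hks := SP.succ_lt hkI
            have hksI := SP.succ_not hkI
            rw [hZ, mem_filter, mem_range] at hk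
            have hadj : G.Adj (p k) (p (k + 1)) := SP.adj k hks
            have hna : ¬ G.Adj a (p (k + 1)) := SP.notC hks hksI haC'
            have hnC : p (k + 1) ∉ C := fun h => hk.2.2 (Or.inr ⟨_, h, hadj.symm⟩)
            by_cases hN : p (k + 1) ∈ NC G C
            · rcases hN with h | ⟨c, hc, h⟩
              · exact absurd h hnC
              · obtain ⟨j, hj, hj'⟩ := hatt _ hnC c hc h
                exact ⟨j, fun _ => ⟨hj, hj'⟩⟩
            · exact absurd (hclD _ _ hk.2.2 hN hk.2.1 hadj) hna
          · exact ⟨0, fun h => absurd h hk⟩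
        choose jj hjj using hj
        have hnb : ∀ k ∈ Z, q (jj k + 1) ∈ Z.image p ∧ q (jj k - 1) ∈ Z.image p := by
          intro k hk
          obtain ⟨e1, e2⟩ := hjj k hk
          have hkI := hZI k hk
          have hks := SP.succ_lt hkI
          have hksI := SP.succ_not hkI
          have hna : ¬ G.Adj a (q (jj k)) := by
            rw [e2]
            exact SP.notC hks hksI haC'
          obtain ⟨b1, b2⟩ := hB _ e1 hna
          have hjs := SQ.succ_lt e1
          have hjp := SQ.pos e1
          have hjI := SQ.succ_not e1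
          have hjI' := SQ.pred_not e1
          have hadj1 : G.Adj (q (jj k)) (q (jj k + 1)) := SQ.adj _ hjs
          have hadj2 : G.Adj (q (jj k - 1)) (q (jj k)) := by
            have := SQ.adj (jj k - 1) (by omega)
            rwa [show jj k - 1 + 1 = jj k by omega] at this
          have key : ∀ z, G.Adj a z → G.Adj z (q (jj k)) → z ∉ NC G C → z ∈ Z.image p := by
            intro z hz1 hz2 hz3
            have hzP : z ∈ P := by
              by_contra hzP
              exact hksI (Sys.mem_I.2 ⟨hks, z, hC'cl a haC' z hz1 hzP, by rw [← e2]; exact hz2⟩)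
            obtain ⟨k', hk', hk''⟩ := hmemZ z hzP hz1 hz3
            exact mem_image.2 ⟨k', hk', hk''⟩
          exact ⟨key _ b1 hadj1.symm (hnotNC _ hjs hjI),
            key _ b2 hadj2 (hnotNC _ (by omega) hjI')⟩
        set J := Z.image jj with hJ
        have hcJ : J.card = Z.card := by
          refine card_image_of_injOn ?_
          intro k hk k' hk' h
          have e1 := (hjj k hk).2
          have e2 := (hjj k' hk').2
          have hks := SP.succ_lt (hZI k hk)
          have hks' := SP.succ_lt (hZI k' hk')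
          rw [h, e2] at e1
          have := SP.inj _ hks' _ hks e1
          omega
        have hcW : (Z.image p).card = Z.card := by
          refine card_image_of_injOn ?_
          intro k hk k' hk' h
          exact SP.inj _ (Sys.mem_I.1 (hZI k hk)).1 _ (Sys.mem_I.1 (hZI k' hk')).1 h
        have hJI : ∀ j ∈ J, j ∈ Sys.I G Q.length q C := by
          intro j hj
          obtain ⟨k, hk, rfl⟩ := mem_image.1 hj
          exact (hjj k hk).1
        have himg : J.image (fun j => q (j + 1)) = Z.image p := by
          refine eq_of_subset_of_card_le ?_ ?_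
          · intro v hv
            obtain ⟨j, hj, rfl⟩ := mem_image.1 hv
            obtain ⟨k, hk, rfl⟩ := mem_image.1 hj
            exact (hnb k hk).1
          · have e : (J.image (fun j => q (j + 1))).card = J.card := by
              refine card_image_of_injOn ?_
              intro j hj j' hj' h
              have := SQ.inj _ (SQ.succ_lt (hJI j hj)) _ (SQ.succ_lt (hJI j' hj')) h
              omega
            rw [e, hcJ, hcW]
        have hJne : J.Nonempty := ⟨jj k0, mem_image_of_mem _ hk0⟩
        have hj1 := min'_mem J hJne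
        have h3 : q (J.min' hJne - 1) ∈ J.image (fun j => q (j + 1)) := by
          rw [himg]
          obtain ⟨k, hk, hk'⟩ := mem_image.1 hj1
          rw [← hk']
          exact (hnb k hk).2
        obtain ⟨j, hj, hj'⟩ := mem_image.1 h3
        have hjs := SQ.succ_lt (hJI j hj)
        have h4 := SQ.pos (hJI _ hj1)
        have h6 := (Sys.mem_I.1 (hJI _ hj1)).1
        have h7 := SQ.inj _ hjs _ (by omega) hj'
        have h8 := min'_le J j hj
        omega
      -- 3b
      have hIne : (Sys.I G Q.length q C).Nonempty := ⟨i, hi⟩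
      have hj1 := min'_mem (Sys.I G Q.length q C) hIne
      set j1 := (Sys.I G Q.length q C).min' hIne with hj1'
      have hj1L := (Sys.mem_I.1 hj1).1
      have h0I : (0 : ℕ) ∉ Sys.I G Q.length q C := fun h => by
        have := SQ.pos h
        omega
      have hsp : Q.take j1 ++ Q.drop j1 = Q := List.take_append_drop j1 Q
      have hch := hQ.1
      rw [← hsp, List.isChain_append] at hch
      have htl : (Q.take j1).length = j1 := by
        rw [List.length_take]
        omega
      have hadj : ∀ v ∈ Q.take j1, G.Adj a v ∧ v ∉ NC G C := by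
        intro v hv
        obtain ⟨m, hm, hm'⟩ := List.getElem_of_mem hv
        rw [htl] at hm
        have hmL : m < Q.length := by omega
        have hv' : q m = v := by
          rw [← hm', List.getElem_take]
          exact List.getD_eq_getElem _ _ hmL
        have hmc : m ∈ Sys.cell G Q.length q C 0 := by
          refine Sys.mem_cell.2 ⟨hmL, fun i hi hc => ?_⟩
          have : j1 ≤ i := min'_le _ _ hi
          omega
        rw [← hv']
        exact ⟨SQ.whole h5 hmu hmv hmuv hamu hamv h3 (by omega) h0I hmc,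
          hnotNC m hmL (Sys.not_I_of_cell hmc)⟩
      refine ⟨j1, fun n h => hlen n j1 hj1 h, ?_, ?_⟩
      · have := phi_fin (comp_link (G := G) (l := P) a) haC' (D := Q.take j1) hch.1
          (hQ.2.1.sublist (List.take_sublist j1 Q))
          (fun v hv => hC'cl a haC' v (hadj v hv).1 fun hvP => (hadj v hv).2 (hD v hvP (hadj v hv).1))
          (fun v hv => (hadj v hv).1)
        rwa [htl] at this
      · have := hQ.2.1.length_le_card
        omega

end Pool.Agent.K7.H44.LP
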