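import Pool.Agent.K7.H44.LP.Emb

/-!
# Two longest paths in a `P₅`-free graph
-/

set_option autoImplicit false

namespace Pool.Agent.K7.H44.LP

open Finset Classical

variable {V : Type*} {G : SimpleGraph V}

namespace Sys

variable {L : ℕ} {p : ℕ → V} {C : Set V}

/-- the main lemma with the neighbours of the segments next to the non-neighbours -/
theorem main' (S : Sys G L p C) (h5 : NoP5 G) (hne : (I G L p C).Nonempty) :
    ∃ i ∈ I G L p C, (I G L p C).card + 1 ≤ num G L p (p i) ∧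
      ∀ j ∈ I G L p C, ¬ G.Adj (p i) (p j) →
        cell G L p C (j + 1) ∈ tau G L p C (p i) ∧ cell G L p C (j - 1) ∈ tau G L p C (p i) := by
  obtain ⟨i0, hi0, hmax⟩ := exists_max_image (I G L p C) (fun i => (tau G L p C (p i)).card) hne
  have hboth : ∀ j ∈ I G L p C, ¬ G.Adj (p i0) (p j) →
        cell G L p C (j + 1) ∈ tau G L p C (p i0) ∧ cell G L p C (j - 1) ∈ tau G L p C (p i0) := by
    intro j hj hn
    have h1 := S.succ_lt hj
    have h2 := S.succ_not hj
    have h3 := S.pos hj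
    have h4 : G.Adj (p j) (p (j - 1)) := by
      have := S.adj (j - 1) (by omega)
      rw [show j - 1 + 1 = j by omega] at this
      exact this.symm
    exact ⟨S.claim h5 hi0 hj (hmax j hj) h1 h2 (S.adj j h1) (S.ind_succ hj) hn,
      S.claim h5 hi0 hj (hmax j hj) (by omega) (S.pred_not hj) h4 (S.ind_pred hj) hn⟩
  refine ⟨i0, hi0, ?_, hboth⟩
  set X := (I G L p C).filter fun j => ¬ G.Adj (p i0) (p j) with hX
  have hi0X : i0 ∈ X := by
    rw [hX, mem_filter]
    exact ⟨hi0, G.loopless.irrefl _⟩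
  have hXne : X.Nonempty := ⟨i0, hi0X⟩
  set j1 := X.min' hXne with hj1
  have hj1X : j1 ∈ X := min'_mem _ hXne
  have hj1I : j1 ∈ I G L p C := (mem_filter.1 hj1X).1
  have hinj : Set.InjOn (fun j => cell G L p C (j + 1)) (X : Set ℕ) := by
    intro j hj j' hj' h
    simp only at h
    have hjI := (mem_filter.1 (mem_coe.1 hj)).1
    have hjI' := (mem_filter.1 (mem_coe.1 hj')).1
    have h1 : j + 1 ∈ cell G L p C (j' + 1) := h ▸ self_mem (S.succ_lt hjI) (S.succ_not hjI)
    have h2 := (mem_cell.1 h1).2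
    have h3 := h2 j hjI
    have h4 := h2 j' hjI'
    omega
  have hnot : cell G L p C (j1 - 1) ∉ X.image fun j => cell G L p C (j + 1) := by
    intro h
    obtain ⟨j, hj, h'⟩ := mem_image.1 h
    have hjI := (mem_filter.1 hj).1
    have hle : j1 ≤ j := min'_le _ _ hj
    have h1 : j + 1 ∈ cell G L p C (j1 - 1) := h' ▸ self_mem (S.succ_lt hjI) (S.succ_not hjI)
    have h2 := (mem_cell.1 h1).2 j1 hj1I
    omega
  have hcard : X.card + 1 ≤ (tau G L p C (p i0)).card := by
    rw [← card_image_of_injOn hinj, ← card_insert_of_notMem hnot]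
    refine card_le_card ?_
    intro T hT
    rcases mem_insert.1 hT with rfl | hT
    · exact (hboth j1 hj1I (mem_filter.1 hj1X).2).2
    · obtain ⟨j, hj, rfl⟩ := mem_image.1 hT
      exact (hboth j (mem_filter.1 hj).1 (mem_filter.1 hj).2).1
  have hcard2 : (tau G L p C (p i0)).card ≤
      ((range L).filter fun k => k ∉ I G L p C ∧ G.Adj (p i0) (p k)).card := card_image_le
  have hcard3 : ((I G L p C).filter fun j => G.Adj (p i0) (p j)).card + X.card =
      (I G L p C).card := by
    rw [hX]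
    exact card_filter_add_card_filter_not (s := I G L p C) (fun j => G.Adj (p i0) (p j))
  have hcard4 : ((range L).filter fun k => k ∉ I G L p C ∧ G.Adj (p i0) (p k)).card +
      ((I G L p C).filter fun j => G.Adj (p i0) (p j)).card ≤ num G L p (p i0) := by
    rw [num, ← card_union_of_disjoint]
    · refine card_le_card ?_
      intro k hk
      rcases mem_union.1 hk with h | h
      · rw [mem_filter] at h ⊢
        exact ⟨h.1, h.2.2⟩
      · rw [mem_filter] at h ⊢
        exact ⟨mem_range.2 (mem_I.1 h.1).1, h.2⟩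
    · rw [disjoint_left]
      intro k h1 h2
      exact (mem_filter.1 h1).2.1 (mem_filter.1 h2).1
  omega

/-- if `p i` is mixed on `C`, it is adjacent to all vertices of the segments it meets -/
theorem whole (S : Sys G L p C) (h5 : NoP5 G) {i : ℕ} {u v : V} (hu : u ∈ C) (hv : v ∈ C)
    (huv : G.Adj u v) (hau : G.Adj (p i) u) (hav : ¬ G.Adj (p i) v) {k m : ℕ}
    (hT : cell G L p C k ∈ tau G L p C (p i)) (hk : k < L) (hkI : k ∉ I G L p C)
    (hm : m ∈ cell G L p C k) : G.Adj (p i) (p m) := by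
  obtain ⟨k', hk', hkI', hak, he⟩ := mem_tau.1 hT
  by_contra h
  have h1 : m ∈ cell G L p C k' := by rw [he]; exact hm
  obtain ⟨y, hy, y', hy', h3, h4, h6⟩ := S.edge hk' (self_mem hk' hkI') h1 hak h
  have yL := (mem_cell.1 hy).1
  have yL' := (mem_cell.1 hy').1
  exact h5 v u (p i) (p y) (p y') huv.symm hau.symm h4 h3 (fun h => hav h.symm)
    (S.notC yL (not_I_of_cell hy) hv) (S.notC yL' (not_I_of_cell hy') hv)
    (S.notC yL (not_I_of_cell hy) hu) (S.notC yL' (not_I_of_cell hy') hu) h6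

theorem mixed' (S : Sys G L p C) (h5 : NoP5 G) {i : ℕ} (hi : i ∈ I G L p C) {u v : V} (hu : u ∈ C)
    (hv : v ∈ C) (huv : G.Adj u v) (hau : G.Adj (p i) u) (hav : ¬ G.Adj (p i) v) :
    ∃ l l' : V, G.Adj (p i) l ∧ G.Adj (p i) l' ∧ l ≠ l' ∧ ¬ G.Adj l l' ∧
      ∀ c ∈ C, ¬ G.Adj l c ∧ ¬ G.Adj l' c := by
  have hiL := S.succ_lt hi
  have hip := S.pos hi
  have hsI := S.succ_not hi
  have hpI := S.pred_not hi
  obtain ⟨m, hm, hm'⟩ := S.first (show i - 1 < L by omega) hpI
  have hmL := (mem_cell.1 hm).1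
  have hmI := not_I_of_cell hm
  have h1 : G.Adj (p i) (p (i - 1)) := by
    have := S.adj (i - 1) (by omega)
    rw [show i - 1 + 1 = i by omega] at this
    exact this.symm
  have h2 : G.Adj (p i) (p m) := S.whole h5 hu hv huv hau hav
    (mem_tau.2 ⟨i - 1, by omega, hpI, h1, rfl⟩) (by omega) hpI hm
  refine ⟨p (i + 1), p m, S.adj i hiL, h2, ?_, S.succ_first hi hm' hmL, fun c hc =>
    ⟨S.notC' hiL hsI hc, S.notC' hmL hmI hc⟩⟩
  intro h
  have h3 := S.inj _ hiL _ hmL h
  have h4 := (mem_cell.1 hm).2 i hi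
  omega

end Sys

/-- the closed neighbourhood -/
def NC (G : SimpleGraph V) (C : Set V) : Set V := {v | v ∈ C ∨ ∃ c ∈ C, G.Adj c v}

end Pool.Agent.K7.H44.LP
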